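import Pool.Agent.W401.Cheb.Main
import Pool.Agent.Y697.MQ.Kum
import Pool.Agent.V11291.JF.Dens

/-!
# A Galois extension separating the two functions on the diagonal
-/

set_option autoImplicit false

namespace Pool.Agent.V11291.E49

open NumberField Polynomial
open Pool.Agent.W401.Cheb (xp HasFrob)

/-- signs for three square roots -/
theorem ind3 : ∀ J : Finset (Fin 3), J.Nonempty →
    ¬ IsSquare (∏ i ∈ J, (![-1, 2, -7] : Fin 3 → ℤ) i) := by
  decide +kernel

theorem exists_split (f : ℚ[X]) :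
    ∃ (L : Type) (_ : Field L) (_ : CharZero L), IsSplittingField ℚ L f := by
  have hcz : CharZero f.SplittingField := charZero_of_injective_algebraMap
    (algebraMap ℚ f.SplittingField).injective
  refine ⟨f.SplittingField, inferInstance, hcz, ?_⟩
  have h := IsSplittingField.splittingField f
  convert h
  exact Subsingleton.elim _ _

theorem exists_field {E : ℕ} (hE : E ≠ 0) :
    ∃ (L : Type) (_ : Field L) (_ : NumberField L) (_ : IsGalois ℚ L) (g : Gal(L/ℚ))
      (i t s γ : 𝓞 L), i ^ 2 = -1 ∧ t ^ 2 = 2 ∧ s ^ 2 = -7 ∧ 2 * γ ^ 2 = (E : 𝓞 L) * (s - 7) ∧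
      g • i = i ∧ g • t = t ∧ g • s = s ∧ g • γ = -γ := by
  classical
  have hEQ : (E : ℚ) ≠ 0 := by exact_mod_cast hE
  obtain ⟨f1, hf1⟩ : ∃ f : ℚ[X], f = X ^ 2 + C 1 := ⟨_, rfl⟩
  obtain ⟨f2, hf2⟩ : ∃ f : ℚ[X], f = X ^ 2 - C 2 := ⟨_, rfl⟩
  obtain ⟨f3, hf3⟩ : ∃ f : ℚ[X], f = X ^ 4 + C (7 * (E : ℚ)) * X ^ 2 + C (14 * (E : ℚ) ^ 2) :=
    ⟨_, rfl⟩
  have d1 : f1.natDegree = 2 := by rw [hf1]; compute_degree!
  have d2 : f2.natDegree = 2 := by rw [hf2]; compute_degree!
  have d3 : f3.natDegree = 4 := by rw [hf3]; compute_degree!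
  have n1 : f1 ≠ 0 := by rintro h; rw [h] at d1; simp at d1
  have n2 : f2 ≠ 0 := by rintro h; rw [h] at d2; simp at d2
  have n3 : f3 ≠ 0 := by rintro h; rw [h] at d3; simp at d3
  obtain ⟨f, hf⟩ : ∃ f : ℚ[X], f = f1 * f2 * f3 := ⟨_, rfl⟩
  have hf0 : f ≠ 0 := by rw [hf]; exact mul_ne_zero (mul_ne_zero n1 n2) n3
  obtain ⟨L, hL1, hcz, hLs⟩ := exists_split f
  have hroot : ∀ h : ℚ[X], h ∣ f → h.natDegree ≠ 0 → ∃ x : L, aeval x h = 0 := by
    intro h hd hdeg
    have hs : Splits (h.map (algebraMap ℚ L)) :=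
      (IsSplittingField.splits L f).of_dvd (Polynomial.map_ne_zero hf0) (Polynomial.map_dvd _ hd)
    obtain ⟨x, hx⟩ := hs.exists_eval_eq_zero (by
      rw [degree_map]
      intro h0
      exact hdeg (natDegree_eq_of_degree_eq_some h0))
    exact ⟨x, by rwa [eval_map_algebraMap] at hx⟩
  obtain ⟨i, hi⟩ := hroot f1 ⟨f2 * f3, by rw [hf]; ring⟩ (by rw [d1]; norm_num)
  obtain ⟨t, ht⟩ := hroot f2 ⟨f1 * f3, by rw [hf]; ring⟩ (by rw [d2]; norm_num)
  obtain ⟨γ, hγ⟩ := hroot f3 ⟨f1 * f2, by rw [hf]; ring⟩ (by rw [d3]; norm_num)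
  have hi' : i ^ 2 = -1 := by
    rw [hf1] at hi
    simp only [map_add, map_pow, aeval_X, map_one] at hi
    linear_combination hi
  have ht' : t ^ 2 = 2 := by
    rw [hf2] at ht
    simp only [map_sub, map_pow, aeval_X, map_ofNat] at ht
    linear_combination ht
  have hγ' : γ ^ 4 + 7 * (E : L) * γ ^ 2 + 14 * (E : L) ^ 2 = 0 := by
    rw [hf3] at hγ
    simp only [map_add, map_mul, map_pow, aeval_X, map_ofNat, map_natCast] at hγ
    exact hγ
  have hE0 : (E : L) ≠ 0 := by exact_mod_cast hE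
  obtain ⟨s, hs⟩ : ∃ s : L, s = (2 * γ ^ 2 + 7 * E) / E := ⟨_, rfl⟩
  have hs' : s ^ 2 = -7 := by
    rw [hs]
    field_simp
    linear_combination 4 * hγ'
  have hγs : 2 * γ ^ 2 = (E : L) * (s - 7) := by
    rw [hs]
    field_simp
    ring
  have hfd : FiniteDimensional ℚ L := IsSplittingField.finiteDimensional L f
  have hnf : NumberField L := ⟨⟩
  have hnorm : Normal ℚ L := Normal.of_isSplittingField f
  have hsep : Algebra.IsSeparable ℚ L := Algebra.IsAlgebraic.isSeparable_of_perfectField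
  have hgal : IsGalois ℚ L := ⟨⟩
  -- the automorphism
  obtain ⟨σ, hσ⟩ := Pool.Agent.Y697.MQ.kummer (k := ℚ) (K := L) (I := Fin 3)
    ![i, t, s] ![-1, 2, -7] (by
      intro j
      fin_cases j <;> simp) (by
      intro j
      fin_cases j
      · simpa using hi'
      · simpa using ht'
      · simpa using hs') two_ne_zero (by
      intro J hJ h
      apply ind3 J hJ
      have h3 : (∏ j ∈ J, (![-1, 2, -7] : Fin 3 → ℚ) j) =
          ((∏ j ∈ J, (![-1, 2, -7] : Fin 3 → ℤ) j : ℤ) : ℚ) := by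
        push_cast
        refine Finset.prod_congr rfl fun j _ => ?_
        fin_cases j <;> simp
      rw [h3] at h
      exact Rat.isSquare_intCast_iff.1 h) ![0, 0, 1]
  have s1 : σ i = i := by
    have := hσ 0
    simpa [Pool.Agent.Y697.MQ.sg] using this
  have s2 : σ t = t := by
    have := hσ 1
    simpa [Pool.Agent.Y697.MQ.sg] using this
  have s3 : σ s = -s := by
    have := hσ 2
    simpa [Pool.Agent.Y697.MQ.sg] using this
  have hγ0 : γ ≠ 0 := by
    rintro rfl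
    have h1 : 14 * (E : L) ^ 2 = 0 := by linear_combination hγ'
    exact mul_ne_zero (by norm_num) (pow_ne_zero 2 hE0) h1
  have hσγ0 : σ γ ≠ 0 := (map_ne_zero σ).2 hγ0
  have e1 : 2 * (σ γ) ^ 2 = (E : L) * (-s - 7) := by
    have h1 := congrArg σ hγs
    simp only [map_mul, map_pow, map_sub, map_natCast, map_ofNat, s3] at h1
    exact h1
  have e2 : (γ * σ γ) ^ 2 = (i * t * s * E) ^ 2 := by
    have h1 : 4 * (γ * σ γ) ^ 2 = 4 * (i * t * s * E) ^ 2 := by
      have h2 : 4 * (γ * σ γ) ^ 2 = (2 * γ ^ 2) * (2 * (σ γ) ^ 2) := by ring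
      rw [h2, hγs, e1]
      have h3 : 4 * (i * t * s * (E : L)) ^ 2 = 4 * (i ^ 2 * t ^ 2 * s ^ 2 * E ^ 2) := by
        ring
      rw [h3, hi', ht']
      linear_combination ((E : L) ^ 2 * 7) * hs'
    exact mul_left_cancel₀ (by norm_num : (4 : L) ≠ 0) h1
  have e3 : σ (γ * σ γ) = -(γ * σ γ) := by
    rcases sq_eq_sq_iff_eq_or_eq_neg.1 e2 with h | h
    · rw [h]
      simp only [map_mul, map_natCast, s1, s2, s3]
      ring
    · rw [h]
      simp only [map_neg, map_mul, map_natCast, s1, s2, s3]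
      ring
  have e4 : σ (σ γ) = -γ := by
    rw [map_mul] at e3
    have h1 : σ γ * σ (σ γ) = σ γ * (-γ) := by rw [e3]; ring
    exact mul_left_cancel₀ hσγ0 h1
  -- integers
  have hpow : ∀ (x : L) (a : ℤ), x ^ 2 = (a : L) → IsIntegral ℤ x := by
    intro x a hx
    refine IsIntegral.of_pow (n := 2) (by norm_num) ?_
    rw [hx]
    exact isIntegral_algebraMap (R := ℤ) (x := a)
  have ii : IsIntegral ℤ i := hpow i (-1) (by rw [hi']; push_cast; rfl)
  have it : IsIntegral ℤ t := hpow t 2 (by rw [ht']; push_cast; rfl)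
  have is : IsIntegral ℤ s := hpow s (-7) (by rw [hs']; push_cast; rfl)
  have iγ : IsIntegral ℤ γ := by
    refine ⟨X ^ 4 + C (7 * (E : ℤ)) * X ^ 2 + C (14 * (E : ℤ) ^ 2), by monicity!, ?_⟩
    simp only [eval₂_add, eval₂_mul, eval₂_pow, eval₂_X, map_mul, map_pow, map_natCast,
      map_ofNat, eval₂_natCast, eval₂_ofNat]
    exact hγ'
  refine ⟨L, hL1, hnf, hgal, σ * σ, ⟨i, ii⟩, ⟨t, it⟩, ⟨s, is⟩, ⟨γ, iγ⟩, ?_, ?_, ?_, ?_, ?_, ?_, ?_, ?_⟩
  · apply RingOfIntegers.ext
    push_cast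
    exact hi'
  · apply RingOfIntegers.ext
    push_cast
    exact ht'
  · apply RingOfIntegers.ext
    push_cast
    exact hs'
  · apply RingOfIntegers.ext
    push_cast
    exact hγs
  · apply RingOfIntegers.ext
    change σ (σ i) = i
    rw [s1, s1]
  · apply RingOfIntegers.ext
    change σ (σ t) = t
    rw [s2, s2]
  · apply RingOfIntegers.ext
    change σ (σ s) = s
    rw [s3, map_neg, s3, neg_neg]
  · apply RingOfIntegers.ext
    change σ (σ γ) = -γ
    exact e4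

end Pool.Agent.V11291.E49
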