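import Pool.Agent.V11291.E49.Joint

/-!
# The joint proportion: counting
-/

set_option autoImplicit false
set_option linter.style.haveILetI false

open scoped Classical

namespace Pool.Agent.V11291.E49

open Finset
open Pool.Agent.Y703.CQ (nr cu Sol Gd Sp In Cl Ok c2)
open Pool.Agent.Y687 (DD DD_natAbs InertT)
open Pool.Agent.Y687.MQ (AdmD)
open Pool.Agent.Y687.JQ (fD CL CL_iff of_adm)
open Pool.Agent.V11291.JF

/-- the base family -/
def BaseN (D : ℕ) : Prop := Squarefree D ∧ (D % 7 = 1 ∨ D % 7 = 2 ∨ D % 7 = 4) ∧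
  ∀ p : ℕ, p.Prime → p ∣ D → Sp p ∨ I5 p

/-- the twists of `X_0(49)` -/
def Fam49 (L : ℤ) : Prop := Squarefree L ∧ 0 < L ∧ ∀ p : ℕ, p.Prime → (p : ℤ) ∣ L → Sp p ∨ I5 p

theorem Fam49.cl {L : ℤ} (h : Fam49 L) : CL5 L.natAbs.primeFactors ∧
    PR L.natAbs.primeFactors = L := by
  refine ⟨fun p hp => h.2.2 p (Nat.prime_of_mem_primeFactors hp)
    (Int.natCast_dvd.2 (Nat.dvd_of_mem_primeFactors hp)), ?_⟩
  rw [PR_cast, Nat.prod_primeFactors_of_squarefree (Int.squarefree_natAbs.2 h.1)]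
  exact Int.natAbs_of_nonneg h.2.1.le

theorem BaseN.f49 {D : ℕ} (h : BaseN D) : Fam49 (D : ℤ) :=
  ⟨Int.squarefree_natCast.2 h.1, by
    have := h.1.ne_zero
    exact_mod_cast Nat.pos_of_ne_zero this,
    fun p hp hd => h.2.2 p hp (Int.natCast_dvd_natCast.1 hd)⟩

theorem mod4_of {S : Finset ℕ} (h : ∀ p ∈ S, p % 4 = 1) : (∏ p ∈ S, p) % 4 = 1 := by
  induction S using Finset.induction_on with
  | empty => rw [Finset.prod_empty]; rfl
  | insert a S ha ih =>
    rw [Finset.prod_insert ha, Nat.mul_mod, h a (Finset.mem_insert_self a S),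
      ih fun q hq => h q (Finset.mem_insert_of_mem hq)]

theorem BaseN.adm {D : ℕ} (h : BaseN D) : AdmD (D : ℤ) := by
  have h4 : D % 4 = 1 := by
    have h1 := mod4_of (S := D.primeFactors) fun p hp => by
      rcases h.2.2 p (Nat.prime_of_mem_primeFactors hp) (Nat.dvd_of_mem_primeFactors hp) with h2 | h2
      · have := h2.2.1
        omega
      · have := h2.2.1
        omega
    rwa [Nat.prod_primeFactors_of_squarefree h.1] at h1
  refine ⟨Int.squarefree_natCast.2 h.1, by omega, ?_, fun p hp hd => ?_⟩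
  · have := h.2.1
    omega
  · rcases h.2.2 p hp (Int.natCast_dvd_natCast.1 hd) with h2 | h2
    · refine ⟨?_, Or.inl h2⟩
      rintro rfl
      exact absurd h2.2.1 (by norm_num)
    · refine ⟨?_, Or.inr ⟨h2.1, Or.inr h2.2.1, h2.2.2⟩⟩
      rintro rfl
      exact absurd h2.2.1 (by norm_num)

theorem base_iff (D : ℕ) : BaseN D ↔ Squarefree D ∧ Cl {5} {0} D.primeFactors := by
  constructor
  · intro h
    refine ⟨h.1, fun p hp => ?_, ?_, ?_⟩
    · rcases h.2.2 p (Nat.prime_of_mem_primeFactors hp) (Nat.dvd_of_mem_primeFactors hp) with h2 | h2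
      · exact Or.inl h2
      · refine Or.inr ⟨h2.1, ?_, by rw [Finset.mem_singleton]; exact h2.2.1, h2.2.2⟩
        rintro rfl
        exact absurd h2.2.1 (by norm_num)
    · have h1 := (CL_iff.1 (of_adm h.adm).1).2
      rwa [Int.natAbs_natCast] at h1
    · have e : (D.primeFactors.filter fun p => p % 8 = 3) = ∅ := by
        rw [Finset.filter_eq_empty_iff]
        intro p hp h3
        rcases h.2.2 p (Nat.prime_of_mem_primeFactors hp) (Nat.dvd_of_mem_primeFactors hp) with
          h2 | h2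
        · have := h2.2.1
          omega
        · have := h2.2.1
          omega
      rw [e, Finset.card_empty]
      simp
  · rintro ⟨h1, h2, h3, -⟩
    have hC : CL D.primeFactors := by
      rw [CL_iff]
      refine ⟨fun p hp => ?_, h3⟩
      rcases h2 p hp with h4 | ⟨k1, k2, k3, k4⟩
      · exact Or.inl h4
      · exact Or.inr ⟨k2, k1, Or.inr (Finset.mem_singleton.1 k3), k4⟩
    have hDD : DD D.primeFactors = D := by
      unfold DD
      have e : ∏ q ∈ D.primeFactors, Pool.Agent.Y687.qs q = ∏ q ∈ D.primeFactors, (q : ℤ) := by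
        refine Finset.prod_congr rfl fun q hq => ?_
        unfold Pool.Agent.Y687.qs
        rw [if_pos]
        rcases h2 q hq with h4 | ⟨k1, k2, k3, k4⟩
        · have := h4.2.1
          omega
        · have := Finset.mem_singleton.1 k3
          omega
      rw [e, ← Nat.cast_prod, Nat.prod_primeFactors_of_squarefree h1]
    have hA := hC.adm
    rw [hDD] at hA
    refine ⟨h1, ?_, fun p hp hd => ?_⟩
    · have := hA.2.2.1
      omega
    · rcases h2 p (Nat.mem_primeFactors.2 ⟨hp, hd, h1.ne_zero⟩) with h4 | ⟨k1, k2, k3, k4⟩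
      · exact Or.inl h4
      · exact Or.inr ⟨k1, Finset.mem_singleton.1 k3, k4⟩

theorem adm_wit {M : ℤ} (h : AdmD M) : ∀ u ∈ M.natAbs.primeFactors, u.Prime ∧ u ≠ 2 ∧ u ≠ 7 := by
  intro u hu
  have hp := Nat.prime_of_mem_primeFactors hu
  rcases (h.2.2.2 u hp (Int.natCast_dvd.2 (Nat.dvd_of_mem_primeFactors hu))).2 with h1 | h1
  · refine ⟨hp, ?_, ?_⟩
    · rintro rfl
      exact absurd h1.2.1 (by norm_num)
    · rintro rfl
      exact absurd h1.2.1 (by norm_num)
  · refine ⟨hp, ?_, ?_⟩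
    · rintro rfl
      exact absurd h1.2.1 (by norm_num)
    · rintro rfl
      exact absurd h1.2.1 (by norm_num)

theorem f49_wit {L : ℤ} (h : Fam49 L) : ∀ u ∈ L.natAbs.primeFactors, u.Prime ∧ u ≠ 2 ∧ u ≠ 7 := by
  intro u hu
  have hp := Nat.prime_of_mem_primeFactors hu
  rcases h.2.2 u hp (Int.natCast_dvd.2 (Nat.dvd_of_mem_primeFactors hu)) with h1 | h1
  · refine ⟨hp, ?_, ?_⟩
    · rintro rfl
      exact absurd h1.2.1 (by norm_num)
    · rintro rfl
      exact absurd h1.2.1 (by norm_num)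
  · refine ⟨hp, ?_, ?_⟩
    · rintro rfl
      exact absurd h1.2.1 (by norm_num)
    · rintro rfl
      exact absurd h1.2.1 (by norm_num)

/-- **the joint proportion** -/
theorem joint {𝓜 𝓛 : Finset ℤ} (hM : ∀ M ∈ 𝓜, AdmD M) (hL : ∀ L ∈ 𝓛, Fam49 L) :
    Filter.Tendsto (fun X : ℕ => (((Icc 1 X).filter fun D : ℕ => BaseN D ∧
        (∀ M ∈ 𝓜, R14 (M * D)) ∧ ∀ L ∈ 𝓛, R49 (L * D)).card : ℝ) /
      (((Icc 1 X).filter BaseN).card : ℝ)) Filter.atTop (nhds (c2 ^ (𝓜.card + 𝓛.card))) := by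
  obtain ⟨eq⟩ : Nonempty (Fin (𝓜.card + 𝓛.card) ≃ (𝓜 ⊕ 𝓛)) :=
    ⟨finSumFinEquiv.symm.trans (Equiv.sumCongr 𝓜.equivFin.symm 𝓛.equivFin.symm)⟩
  obtain ⟨f, hf⟩ : ∃ f : Fin (𝓜.card + 𝓛.card) → ℕ → ZMod 2,
      f = fun i => Sum.elim (fun _ => fD) (fun _ => n4) (eq i) := ⟨_, rfl⟩
  obtain ⟨V, hV⟩ : ∃ V : Fin (𝓜.card + 𝓛.card) → Finset ℕ,
      V = fun i => Sum.elim (fun M : 𝓜 => (M : ℤ).natAbs.primeFactors)
        (fun L : 𝓛 => (L : ℤ).natAbs.primeFactors) (eq i) := ⟨_, rfl⟩
  have hfl : ∀ i M, eq i = Sum.inl M → f i = fD ∧ V i = (M : ℤ).natAbs.primeFactors := by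
    intro i M h
    rw [hf, hV]
    simp only [h, Sum.elim_inl]
    trivial
  have hfr : ∀ i L, eq i = Sum.inr L → f i = n4 ∧ V i = (L : ℤ).natAbs.primeFactors := by
    intro i L h
    rw [hf, hV]
    simp only [h, Sum.elim_inr]
    trivial
  have hVw : ∀ i, ∀ u ∈ V i, u.Prime ∧ u ≠ 2 ∧ u ≠ 7 := by
    intro i u hu
    rcases h : eq i with M | L
    · rw [(hfl i M h).2] at hu
      exact adm_wit (hM M M.2) u hu
    · rw [(hfr i L h).2] at hu
      exact f49_wit (hL L L.2) u hu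
  have hsd : ∀ i j, ∀ u ∈ symmDiff (V i) (V j), u.Prime ∧ u ≠ 2 ∧ u ≠ 7 := by
    intro i j u hu
    rcases Finset.mem_symmDiff.1 hu with h | h
    · exact hVw i u h.1
    · exact hVw j u h.1
  have hOk : OkV (univ.biUnion V) V := by
    refine ⟨fun u hu => ?_, fun i => Finset.subset_biUnion_of_mem V (Finset.mem_univ i)⟩
    obtain ⟨i, -, hi⟩ := Finset.mem_biUnion.1 hu
    exact hVw i u hi
  have hSep : Sep f V := by
    intro i j hij
    have hne : eq i ≠ eq j := fun h => hij (eq.injective h)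
    rcases h : eq i with M | L <;> rcases h' : eq j with M' | L'
    · obtain ⟨a1, a2⟩ := hfl i M h
      obtain ⟨b1, b2⟩ := hfl j M' h'
      have hMM : M ≠ M' := by
        rintro rfl
        exact hne (h.trans h'.symm)
      have hnn : (symmDiff (V i) (V j)).Nonempty := by
        rw [Finset.nonempty_iff_ne_empty]
        intro h0
        apply hMM
        apply Subtype.ext
        have h1 : V i = V j := symmDiff_eq_bot.1 h0
        rw [a2, b2] at h1
        rw [← (of_adm (hM M M.2)).2, ← (of_adm (hM M' M'.2)).2, h1]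
      obtain ⟨δ, C, hδ, hC⟩ := sep_same hnn (hsd i j)
      refine ⟨δ, C, hδ, fun y hy => (hC y hy).trans (le_of_eq ?_)⟩
      refine Finset.sum_congr (Finset.filter_congr fun p _ => ?_) fun _ _ => rfl
      unfold df
      rw [a1, b1, CharTwo.add_self_eq_zero, zero_add]
    · obtain ⟨a1, a2⟩ := hfl i M h
      obtain ⟨b1, b2⟩ := hfr j L' h'
      obtain ⟨δ, C, hδ, hC⟩ := sep_mixed (hsd i j)
      refine ⟨δ, C, hδ, fun y hy => (hC y hy).trans (le_of_eq ?_)⟩
      refine Finset.sum_congr (Finset.filter_congr fun p _ => ?_) fun _ _ => rfl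
      unfold df
      rw [a1, b1]
    · obtain ⟨a1, a2⟩ := hfr i L h
      obtain ⟨b1, b2⟩ := hfl j M' h'
      obtain ⟨δ, C, hδ, hC⟩ := sep_mixed (hsd i j)
      refine ⟨δ, C, hδ, fun y hy => (hC y hy).trans (le_of_eq ?_)⟩
      refine Finset.sum_congr (Finset.filter_congr fun p _ => ?_) fun _ _ => rfl
      unfold df
      rw [a1, b1, add_comm (fD p) (n4 p)]
    · obtain ⟨a1, a2⟩ := hfr i L h
      obtain ⟨b1, b2⟩ := hfr j L' h'
      have hLL : L ≠ L' := by
        rintro rfl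
        exact hne (h.trans h'.symm)
      have hnn : (symmDiff (V i) (V j)).Nonempty := by
        rw [Finset.nonempty_iff_ne_empty]
        intro h0
        apply hLL
        apply Subtype.ext
        have h1 : V i = V j := symmDiff_eq_bot.1 h0
        rw [a2, b2] at h1
        rw [← (hL L L.2).cl.2, ← (hL L' L'.2).cl.2, h1]
      obtain ⟨δ, C, hδ, hC⟩ := sep_same hnn (hsd i j)
      refine ⟨δ, C, hδ, fun y hy => (hC y hy).trans (le_of_eq ?_)⟩
      refine Finset.sum_congr (Finset.filter_congr fun p _ => ?_) fun _ _ => rfl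
      unfold df
      rw [a1, b1, CharTwo.add_self_eq_zero, zero_add]
  have hmain := t_FDEN {5} {0} (𝓜.card + 𝓛.card) f (univ.biUnion V) V
    ⟨Or.inl rfl, Or.inl (Finset.mem_singleton_self 0)⟩ hOk hSep
  refine hmain.congr fun X => congrArg₂ (fun a b : ℕ => (a : ℝ) / (b : ℝ)) ?_ ?_
  · refine congrArg Finset.card (Finset.filter_congr fun D _ => ?_)
    rw [← and_assoc, ← base_iff]
    refine and_congr_right fun hD => ?_
    have hcl := hD.f49.cl
    rw [Int.natAbs_natCast] at hcl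
    constructor
    · intro hG
      refine ⟨fun M hMM => ?_, fun L hLL => ?_⟩
      · obtain ⟨i, hi⟩ := eq.surjective (Sum.inl ⟨M, hMM⟩)
        obtain ⟨a1, a2⟩ := hfl i _ hi
        have h1 := hG i
        rw [a1, a2] at h1
        rw [R14_mul (hM M hMM) hD.adm, Int.natAbs_natCast]
        exact h1
      · obtain ⟨i, hi⟩ := eq.surjective (Sum.inr ⟨L, hLL⟩)
        obtain ⟨a1, a2⟩ := hfr i _ hi
        have h1 := hG i
        rw [a1, a2] at h1
        have h2 := (R49_mul (hL L hLL).cl.1 hcl.1).2 h1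
        rwa [(hL L hLL).cl.2, hcl.2] at h2
    · rintro ⟨h1, h2⟩ i
      rcases h : eq i with M | L
      · obtain ⟨a1, a2⟩ := hfl i M h
        rw [a1, a2]
        have h3 := (R14_mul (hM M M.2) hD.adm).1 (h1 M M.2)
        rwa [Int.natAbs_natCast] at h3
      · obtain ⟨a1, a2⟩ := hfr i L h
        rw [a1, a2]
        refine (R49_mul (hL L L.2).cl.1 hcl.1).1 ?_
        rw [(hL L L.2).cl.2, hcl.2]
        exact h2 L L.2
  · refine congrArg Finset.card (Finset.filter_congr fun D _ => ?_)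
    exact (base_iff D).symm

end Pool.Agent.V11291.E49
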