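import Pool.Agent.Y812.Z.Sela
import Pool.Agent.Z363.SELB.Selb
import Pool.Agent.Y703.CQ.Stm

/-!
# The isogeny Selmer sets of the twists of `X_0(49)`

`E_D : y² = x³ + 21 D x² + 112 D² x`, `E'_D : y² = x³ - 42 D x² - 7 D² x`.
Adapted from `Pool.Agent.Y812.Z.Sela` (helper812) and `Pool.Agent.Y814.BSD14` (helper814).
-/

set_option autoImplicit false
set_option linter.style.haveILetI false

open scoped Classical

namespace Pool.Agent.V11291.E49

open Finset
open Pool.Agent.Y700 (PC)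
open Pool.Agent.Y814.BSD14 (root_of_PC not_dvd_of_PC only_prime not_dvd_of_sqf cast_ne no_pt)
open Pool.Agent.Y809.BSD14 (sq_of_PC unit_sq)
open Pool.Agent.Y703.CQ (nr)

/-- `-7` is not a fourth power -/
noncomputable def n4 (p : ℕ) : ZMod 2 := if ∃ y : ZMod p, y ^ 4 = -7 then 0 else 1

theorem sq_mul {p : ℕ} [hp : Fact p.Prime] (hp2 : p ≠ 2) {a b : ZMod p} (ha : a ≠ 0)
    (hb : b ≠ 0) : IsSquare (a * b) ↔ (IsSquare a ↔ IsSquare b) := by
  have hc : ringChar (ZMod p) ≠ 2 := by rwa [ZMod.ringChar_zmod_n]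
  have h1 := quadraticChar_one_iff_isSquare ha
  have h2 := quadraticChar_one_iff_isSquare hb
  have h3 := quadraticChar_one_iff_isSquare (mul_ne_zero ha hb)
  rw [← h1, ← h2, ← h3, map_mul]
  rcases quadraticChar_dichotomy ha with e1 | e1 <;> rcases quadraticChar_dichotomy hb with e2 | e2 <;>
    rw [e1, e2] <;> decide

theorem nr_mul {p a b : ℕ} (hp : p.Prime) (hp2 : p ≠ 2) (ha : ¬ p ∣ a) (hb : ¬ p ∣ b) :
    nr p (a * b) = nr p a + nr p b := by
  have : Fact p.Prime := ⟨hp⟩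
  have ha' : (a : ZMod p) ≠ 0 := by rwa [Ne, ZMod.natCast_eq_zero_iff]
  have hb' : (b : ZMod p) ≠ 0 := by rwa [Ne, ZMod.natCast_eq_zero_iff]
  have h := sq_mul hp2 ha' hb'
  unfold nr
  push_cast
  by_cases h1 : IsSquare (a : ZMod p) <;> by_cases h2 : IsSquare (b : ZMod p)
  · rw [if_pos h1, if_pos h2, if_pos (h.2 (by tauto))]; decide
  · rw [if_pos h1, if_neg h2, if_neg (fun h3 => by have := h.1 h3; tauto)]; decide
  · rw [if_neg h1, if_pos h2, if_neg (fun h3 => by have := h.1 h3; tauto)]; decide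
  · rw [if_neg h1, if_neg h2, if_pos (h.2 (by tauto))]; decide

theorem not_dvd_prod {p : ℕ} (hp : p.Prime) {S : Finset ℕ} (hS : ∀ q ∈ S, q.Prime) (h : p ∉ S) :
    ¬ p ∣ ∏ q ∈ S, q := by
  intro h1
  obtain ⟨q, hq, hpq⟩ := (Nat.Prime.prime hp).exists_mem_finset_dvd h1
  have h2 := (Nat.prime_dvd_prime_iff_eq hp (hS q hq)).1 hpq
  exact h (h2 ▸ hq)

theorem nr_prod {p : ℕ} (hp : p.Prime) (hp2 : p ≠ 2) {S : Finset ℕ} (hS : ∀ q ∈ S, q.Prime)
    (h : p ∉ S) : nr p (∏ q ∈ S, q) = ∑ q ∈ S, nr p q := by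
  induction S using Finset.induction_on with
  | empty =>
    unfold nr
    rw [Finset.prod_empty, Nat.cast_one, if_pos ⟨1, (one_mul 1).symm⟩, Finset.sum_empty]
  | insert q S hq ih =>
    have hp1 : p ∉ S := fun h' => h (Finset.mem_insert_of_mem h')
    have hS' : ∀ r ∈ S, r.Prime := fun r hr => hS r (Finset.mem_insert_of_mem hr)
    rw [Finset.prod_insert hq, Finset.sum_insert hq, ← ih hS' hp1]
    refine nr_mul hp hp2 ?_ (not_dvd_prod hp hS' hp1)
    intro h1
    have h2 := (Nat.prime_dvd_prime_iff_eq hp (hS q (Finset.mem_insert_self q S))).1 h1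
    exact h (h2 ▸ Finset.mem_insert_self q S)

theorem nr_zero {p m : ℕ} : nr p m = 0 ↔ IsSquare (m : ZMod p) := by
  unfold nr
  split_ifs with h
  · exact iff_of_true rfl h
  · exact iff_of_false one_ne_zero h

theorem eq_of_iff {a b : ZMod 2} (h : a = 0 ↔ b = 0) : a + b = 0 := by
  revert a b
  decide

/-- the hypotheses -/
structure Hyp (Q P : Finset ℕ) : Prop where
  hQ : ∀ q ∈ Q, q.Prime ∧ q % 4 = 1 ∧ ¬ IsSquare (-7 : ZMod q)
  hP : ∀ p ∈ P, p.Prime ∧ p % 8 = 1 ∧ IsSquare (-7 : ZMod p)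
  ker : ∀ J ⊆ P, (∀ i ∈ P \ J, ∑ j ∈ J, nr i j = 0) →
    (∀ i ∈ J, n4 i + ∑ q ∈ Q, nr i q + ∑ j ∈ P \ J, nr i j = 0) → J = ∅

section
variable {Q P : Finset ℕ}

theorem Hyp.disj (H : Hyp Q P) : Disjoint Q P := by
  rw [Finset.disjoint_left]
  intro q hq hp
  exact (H.hQ q hq).2.2 (H.hP q hp).2.2

theorem Hyp.pr (H : Hyp Q P) : ∀ q ∈ Q ∪ P, q.Prime := by
  intro q hq
  rcases Finset.mem_union.1 hq with h | h
  · exact (H.hQ q h).1
  · exact (H.hP q h).1

theorem Hyp.m4 (H : Hyp Q P) : ∀ q ∈ Q ∪ P, q % 4 = 1 := by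
  intro q hq
  rcases Finset.mem_union.1 hq with h | h
  · exact (H.hQ q h).2.1
  · have := (H.hP q h).2.1
    omega

theorem Hyp.erase (H : Hyp Q P) {q : ℕ} (hq : q ∈ Q ∪ P) :
    ((∏ r ∈ Q ∪ P, r : ℕ) : ℤ) = q * ((∏ r ∈ (Q ∪ P).erase q, r : ℕ) : ℤ) ∧
      ¬ (q : ℤ) ∣ ((∏ r ∈ (Q ∪ P).erase q, r : ℕ) : ℤ) := by
  constructor
  · rw [← Nat.cast_mul, Finset.mul_prod_erase (Q ∪ P) (fun r => r) hq]
  · rw [Int.natCast_dvd_natCast]
    exact not_dvd_prod (H.pr q hq) (fun r hr => H.pr r (Finset.mem_of_mem_erase hr))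
      (Finset.notMem_erase _ _)

/-- the frame of the descent -/
theorem frame (H : Hyp Q P) {c1 c2 : ℤ} {q0 : ℕ}
    (hc2 : ∀ q : ℕ, q.Prime → q ≠ 2 → q ≠ q0 → ¬ (q : ℤ) ∣ c2) (hq0P : q0 ∉ P)
    (hrt : ∀ q ∈ Q, ∀ M r : ZMod q, M ≠ 0 → r ^ 2 + c1 * M * r + c2 * M ^ 2 ≠ 0)
    (hsq : ∀ p ∈ P, IsSquare ((c2 : ℤ) : ZMod p)) (hq0 : ∀ p ∈ P, IsSquare (q0 : ZMod p)) {z : ℤ}
    (hz : Squarefree z) (hz2 : ¬ (2 : ℤ) ∣ z)
    (h : ∀ (l : ℕ) [Fact l.Prime], PC (c1 * ((∏ q ∈ Q ∪ P, q : ℕ) : ℤ))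
      (c2 * ((∏ q ∈ Q ∪ P, q : ℕ) : ℤ) ^ 2) l z)
    (hR : ∀ p ∈ P, ∀ r : ZMod p, r ^ 2 + c1 * r + c2 = 0 → (IsSquare r ↔ n4 p = 0)) :
    z.natAbs = 1 ∨ z.natAbs = q0 := by
  have hP2 : ∀ p ∈ P, p ≠ 2 := by
    rintro p hp rfl
    have := (H.hP 2 hp).2.1
    omega
  set J := P.filter (fun p : ℕ => (p : ℤ) ∣ z) with hJdef
  have hJP : J ⊆ P := Finset.filter_subset _ _
  have hJm : ∀ p, p ∈ J ↔ p ∈ P ∧ (p : ℤ) ∣ z := fun p => Finset.mem_filter
  have hprP : ∀ q ∈ P, q.Prime := fun q hq => (H.hP q hq).1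
  have hprJ : ∀ q ∈ J, q.Prime := fun q hq => hprP q (hJP hq)
  -- the primes dividing `z`
  have hpr : ∀ q : ℕ, q.Prime → (q : ℤ) ∣ z → q = q0 ∨ q ∈ P := by
    intro q hq hqz
    by_contra hcon
    push Not at hcon
    have : Fact q.Prime := ⟨hq⟩
    have hqP : Prime (q : ℤ) := Nat.prime_iff_prime_int.1 hq
    have hq2 : q ≠ 2 := by
      rintro rfl
      exact hz2 hqz
    by_cases hqS : q ∈ Q
    · obtain ⟨e1, e2⟩ := H.erase (Finset.mem_union_left P hqS)
      set M' : ℤ := ((∏ r ∈ (Q ∪ P).erase q, r : ℕ) : ℤ) with hM'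
      have hB : ¬ (q : ℤ) ∣ c2 * M' ^ 2 := by
        intro h0
        rcases hqP.dvd_or_dvd h0 with h0 | h0
        · exact hc2 q hq hq2 hcon.1 h0
        · exact e2 (hqP.dvd_of_dvd_pow h0)
      have h1 := h q
      rw [e1, show c1 * ((q : ℤ) * M') = q * (c1 * M') by ring,
        show c2 * ((q : ℤ) * M') ^ 2 = (q : ℤ) ^ 2 * (c2 * M' ^ 2) by ring] at h1
      obtain ⟨r, hr, -, -⟩ := root_of_PC hz hqz hB h1
      have hM0 : (M' : ZMod q) ≠ 0 := by
        intro h0
        exact e2 ((ZMod.intCast_zmod_eq_zero_iff_dvd _ _).1 h0)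
      refine hrt q hqS _ r hM0 ?_
      rw [← hr]
      push_cast
      ring
    · refine not_dvd_of_PC hz ?_ (h q) hqz
      intro h0
      rcases hqP.dvd_or_dvd h0 with h0 | h0
      · exact hc2 q hq hq2 hcon.1 h0
      · have h1 := hqP.dvd_of_dvd_pow h0
        rw [Int.natCast_dvd_natCast] at h1
        refine not_dvd_prod hq H.pr ?_ h1
        intro h2
        rcases Finset.mem_union.1 h2 with h3 | h3
        · exact hqS h3
        · exact hcon.2 h3
  -- the decomposition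
  have hdvd : ((∏ q ∈ J, q : ℕ) : ℤ) ∣ z := by
    rw [Int.natCast_dvd]
    refine Finset.prod_primes_dvd _ (fun q hq => (hprJ q hq).prime) fun q hq => ?_
    exact Int.natCast_dvd.1 ((hJm q).1 hq).2
  obtain ⟨u, hu⟩ := hdvd
  have hJe : ∀ q ∈ J, ((∏ r ∈ J, r : ℕ) : ℤ) = q * ((∏ r ∈ J.erase q, r : ℕ) : ℤ) := by
    intro q hq
    rw [← Nat.cast_mul, Finset.mul_prod_erase J (fun r => r) hq]
  have huq : ∀ q : ℕ, q.Prime → (q : ℤ) ∣ u → q = q0 := by
    intro q hq hqu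
    have hqz : (q : ℤ) ∣ z := by
      rw [hu]
      exact hqu.mul_left _
    rcases hpr q hq hqz with h1 | h1
    · exact h1
    · exfalso
      have hqJ : q ∈ J := (hJm q).2 ⟨h1, hqz⟩
      have h2 : z = q * (((∏ r ∈ J.erase q, r : ℕ) : ℤ) * u) := by
        rw [hu, hJe q hqJ]
        ring
      exact not_dvd_of_sqf hq hz h2 (hqu.mul_left _)
  have hud : u ∣ z := Dvd.intro_left _ hu.symm
  have huu : u.natAbs = 1 ∨ u.natAbs = q0 := only_prime (hz.squarefree_of_dvd hud) huq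
  have husq : ∀ p ∈ P, IsSquare (u : ZMod p) := fun p hp =>
    unit_sq (hprP p hp) (H.hP p hp).2.1 (hq0 p hp) u huu
  have hu0 : ∀ p ∈ P, (u : ZMod p) ≠ 0 := by
    intro p hp h0
    have h1 := (ZMod.intCast_zmod_eq_zero_iff_dvd u p).1 h0
    have h2 := huq p (hprP p hp) h1
    exact hq0P (h2 ▸ hp)
  have hJ : J = ∅ := by
    refine H.ker J hJP ?_ ?_
    · intro p hp
      rw [Finset.mem_sdiff] at hp
      have f : Fact p.Prime := ⟨hprP p hp.1⟩
      have hpz : ¬ (p : ℤ) ∣ z := fun h0 => hp.2 ((hJm p).2 ⟨hp.1, h0⟩)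
      obtain ⟨e1, e2⟩ := H.erase (Finset.mem_union_right Q hp.1)
      have h1 := h p
      rw [e1] at h1
      have hpc2 : ¬ (p : ℤ) ∣ c2 := hc2 p (hprP p hp.1) (hP2 p hp.1) (by
        rintro rfl
        exact hq0P hp.1)
      have h3 := sq_of_PC hpz e2 hpc2 (hsq p hp.1) h1
      rw [← nr_prod (hprP p hp.1) (hP2 p hp.1) hprJ hp.2, nr_zero]
      obtain ⟨r, hr⟩ := h3
      obtain ⟨s, hs⟩ := husq p hp.1
      have hs0 : s ≠ 0 := by
        rintro rfl
        apply hu0 p hp.1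
        rw [hs]
        ring
      refine ⟨r / s, ?_⟩
      rw [div_mul_div_comm, eq_div_iff (mul_ne_zero hs0 hs0), ← hs, ← hr, hu]
      push_cast
      ring
    · intro p hp
      obtain ⟨hpP, z', hz'⟩ := (hJm p).1 hp
      have f : Fact p.Prime := ⟨hprP p hpP⟩
      have hpQ : p ∉ Q := fun h0 => Finset.disjoint_left.1 H.disj h0 hpP
      have hp0 : (p : ℤ) ≠ 0 := by
        have := (hprP p hpP).ne_zero
        exact_mod_cast this
      have e1 : z' = ((∏ r ∈ J.erase p, r : ℕ) : ℤ) * u := by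
        apply mul_left_cancel₀ hp0
        rw [← hz', hu, hJe p hp]
        ring
      -- the other factors
      have hpr1 : ∀ q ∈ Q ∪ (P \ J), q.Prime := by
        intro q hq
        rcases Finset.mem_union.1 hq with h1 | h1
        · exact (H.hQ q h1).1
        · exact hprP q (Finset.mem_sdiff.1 h1).1
      have hpn : p ∉ Q ∪ (P \ J) := by
        intro h1
        rcases Finset.mem_union.1 h1 with h2 | h2
        · exact hpQ h2
        · exact (Finset.mem_sdiff.1 h2).2 hp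
      have hdj : Disjoint Q (P \ J) := H.disj.mono_right Finset.sdiff_subset
      have e2 : n4 p + ∑ q ∈ Q, nr p q + ∑ j ∈ P \ J, nr p j =
          n4 p + nr p (∏ q ∈ Q ∪ (P \ J), q) := by
        rw [nr_prod (hprP p hpP) (hP2 p hpP) hpr1 hpn, Finset.sum_union hdj, add_assoc]
      rw [e2]
      refine eq_of_iff ?_
      rw [nr_zero]
      -- the root
      obtain ⟨e3, e4⟩ := H.erase (Finset.mem_union_right Q hpP)
      have e5 : (Q ∪ P).erase p = (J.erase p) ∪ (Q ∪ (P \ J)) := by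
        ext x
        simp only [Finset.mem_erase, Finset.mem_union, Finset.mem_sdiff]
        constructor
        · rintro ⟨h1, h2 | h2⟩
          · exact Or.inr (Or.inl h2)
          · by_cases h3 : x ∈ J
            · exact Or.inl ⟨h1, h3⟩
            · exact Or.inr (Or.inr ⟨h2, h3⟩)
        · rintro (⟨h1, h2⟩ | h2 | ⟨h2, h3⟩)
          · exact ⟨h1, Or.inr (hJP h2)⟩
          · exact ⟨fun h3 => hpQ (h3 ▸ h2), Or.inl h2⟩
          · exact ⟨fun h4 => h3 (h4 ▸ hp), Or.inr h2⟩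
      have hdj2 : Disjoint (J.erase p) (Q ∪ (P \ J)) := by
        rw [Finset.disjoint_left]
        intro x hx hx'
        have hxJ := Finset.mem_of_mem_erase hx
        rcases Finset.mem_union.1 hx' with h1 | h1
        · exact Finset.disjoint_left.1 H.disj h1 (hJP hxJ)
        · exact (Finset.mem_sdiff.1 h1).2 hxJ
      set A : ℕ := ∏ r ∈ J.erase p, r with hA
      set B : ℕ := ∏ q ∈ Q ∪ (P \ J), q with hB
      have e6 : ((∏ r ∈ (Q ∪ P).erase p, r : ℕ) : ℤ) = (A : ℤ) * B := by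
        rw [e5, Finset.prod_union hdj2, Nat.cast_mul]
      rw [e6] at e3 e4
      have hA0 : (A : ZMod p) ≠ 0 := by
        rw [Ne, ZMod.natCast_eq_zero_iff]
        exact not_dvd_prod (hprP p hpP) (fun q hq => hprJ q (Finset.mem_of_mem_erase hq))
          (Finset.notMem_erase _ _)
      have hB0 : (B : ZMod p) ≠ 0 := by
        rw [Ne, ZMod.natCast_eq_zero_iff]
        exact not_dvd_prod (hprP p hpP) hpr1 hpn
      have hc : ¬ (p : ℤ) ∣ c2 := hc2 p (hprP p hpP) (hP2 p hpP) (by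
        rintro rfl
        exact hq0P hpP)
      have hpp : Prime (p : ℤ) := Nat.prime_iff_prime_int.1 (hprP p hpP)
      have hBB : ¬ (p : ℤ) ∣ c2 * ((A : ℤ) * B) ^ 2 := by
        intro h0
        rcases hpp.dvd_or_dvd h0 with h0 | h0
        · exact hc h0
        · exact e4 (hpp.dvd_of_dvd_pow h0)
      have h1 := h p
      rw [e3, show c1 * ((p : ℤ) * ((A : ℤ) * B)) = p * (c1 * ((A : ℤ) * B)) by ring,
        show c2 * ((p : ℤ) * ((A : ℤ) * B)) ^ 2 = (p : ℤ) ^ 2 * (c2 * ((A : ℤ) * B) ^ 2) by ring] at h1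
      obtain ⟨r, hr, hr0, hr2⟩ := root_of_PC hz ⟨z', hz'⟩ hBB h1
      obtain ⟨t, ht⟩ := hr2 z' hz'
      rw [e1] at ht
      push_cast at hr ht
      have h5 := hR p hpP (r / ((A : ZMod p) * B)) (by
        field_simp
        linear_combination hr)
      rw [← h5]
      obtain ⟨s, hs⟩ := husq p hpP
      have hs0 : s ≠ 0 := by
        rintro rfl
        apply hu0 p hpP
        rw [hs]
        ring
      have ht0 : t ≠ 0 := by
        rintro rfl
        have h6 : r * ((A : ZMod p) * (u : ZMod p)) = 0 := by rw [ht]; ring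
        exact mul_ne_zero hr0 (mul_ne_zero hA0 (hu0 p hpP)) h6
      constructor
      · rintro ⟨w, hw⟩
        have hw' : r = w * w * ((A : ZMod p) * B) := by
          rw [← hw]
          field_simp
        refine ⟨t / (w * A * s), ?_⟩
        have hw0 : w ≠ 0 := by
          rintro rfl
          apply hr0
          rw [hw']
          ring
        rw [div_mul_div_comm, eq_div_iff (by
          exact mul_ne_zero (mul_ne_zero (mul_ne_zero hw0 hA0) hs0)
            (mul_ne_zero (mul_ne_zero hw0 hA0) hs0)), ← ht, hw', hs]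
        ring
      · rintro ⟨w, hw⟩
        have hw0 : w ≠ 0 := by
          rintro rfl
          apply hB0
          rw [hw]
          ring
        refine ⟨t / (A * s * w), ?_⟩
        rw [div_mul_div_comm, div_eq_div_iff (mul_ne_zero hA0 hB0) (by
          exact mul_ne_zero (mul_ne_zero (mul_ne_zero hA0 hs0) hw0)
            (mul_ne_zero (mul_ne_zero hA0 hs0) hw0))]
        have hs' : s * s = (u : ZMod p) := hs.symm
        have hw' : w * w = (B : ZMod p) := hw.symm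
        linear_combination (-(A : ZMod p) * B) * (-ht) + r * (A : ZMod p) ^ 2 * s ^ 2 * hw' +
          r * (A : ZMod p) ^ 2 * B * hs'
  have hz1 : z = u := by
    rw [hu, hJ]
    simp
  rw [hz1]
  exact huu

end

/-! ### the roots -/

theorem n4_zero {p : ℕ} : n4 p = 0 ↔ ∃ y : ZMod p, y ^ 4 = -7 := by
  unfold n4
  split_ifs with h
  · exact iff_of_true rfl h
  · exact iff_of_false one_ne_zero h

/-- a square root of `-7` is a square if and only if `-7` is a fourth power -/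
theorem sq_iff_four {p : ℕ} (hp : p.Prime) (p8 : p % 8 = 1) {s : ZMod p} (hs : s ^ 2 = -7) :
    IsSquare s ↔ n4 p = 0 := by
  have : Fact p.Prime := ⟨hp⟩
  rw [n4_zero]
  constructor
  · rintro ⟨t, rfl⟩
    exact ⟨t, by rw [← hs]; ring⟩
  · rintro ⟨y, hy⟩
    have h1 : (s - y ^ 2) * (s + y ^ 2) = 0 := by linear_combination hs - hy
    obtain ⟨i, hi⟩ : IsSquare (-1 : ZMod p) := by
      rw [ZMod.exists_sq_eq_neg_one_iff]
      omega
    rcases mul_eq_zero.1 h1 with h2 | h2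
    · exact ⟨y, by linear_combination h2⟩
    · exact ⟨i * y, by linear_combination h2 + y ^ 2 * hi⟩

theorem facts {p : ℕ} (hp : p.Prime) (p8 : p % 8 = 1) (h7 : IsSquare (-7 : ZMod p)) :
    p ≠ 7 ∧ (2 : ZMod p) ≠ 0 ∧ (7 : ZMod p) ≠ 0 := by
  have : Fact p.Prime := ⟨hp⟩
  have p2 : p ≠ 2 := by rintro rfl; omega
  have p7 : p ≠ 7 := by rintro rfl; omega
  refine ⟨p7, ?_, ?_⟩
  · exact_mod_cast cast_ne hp Nat.prime_two p2
  · exact_mod_cast cast_ne hp (by norm_num : (7 : ℕ).Prime) p7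

theorem root21 {p : ℕ} (hp : p.Prime) (p8 : p % 8 = 1) (h7 : IsSquare (-7 : ZMod p))
    (r : ZMod p) (hr : r ^ 2 + ((21 : ℤ) : ZMod p) * r + ((112 : ℤ) : ZMod p) = 0) :
    IsSquare r ↔ n4 p = 0 := by
  have : Fact p.Prime := ⟨hp⟩
  obtain ⟨p7, n2, n7⟩ := facts hp p8 h7
  obtain ⟨s, hs⟩ := h7
  push_cast at hr
  have hs2 : s ^ 2 = -7 := by linear_combination -hs
  have h1 : (2 * r + 21 - s) * (2 * r + 21 + s) = 0 := by
    linear_combination 4 * hr - hs2
  have key : ∀ s : ZMod p, s ^ 2 = -7 → 2 * r + 21 = s → (IsSquare r ↔ n4 p = 0) := by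
    intro s hs2 h2
    rw [← sq_iff_four hp p8 hs2]
    -- `r = s ((1 - s) / 2) ^ 4`
    have hr' : r = s * ((1 - s) / 2) ^ 4 := by
      have hr1 : r = (s - 21) / 2 := by
        field_simp
        linear_combination h2
      rw [hr1]
      field_simp
      have e : s * (1 - s) ^ 4 - 2 ^ 3 * (s - 21) =
          (s ^ 3 - 4 * s ^ 2 - s + 24) * (s ^ 2 + 7) := by ring
      linear_combination -e - (s ^ 3 - 4 * s ^ 2 - s + 24) * hs2
    have hne : (1 - s) / 2 ≠ 0 := by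
      rw [div_ne_zero_iff]
      refine ⟨fun h0 => ?_, n2⟩
      have h3 : s = 1 := by linear_combination -h0
      rw [h3] at hs2
      have h4 : (2 : ZMod p) ^ 3 = 0 := by linear_combination hs2
      exact pow_ne_zero 3 n2 h4
    constructor
    · rintro ⟨w, hw⟩
      refine ⟨w / ((1 - s) / 2) ^ 2, ?_⟩
      rw [div_mul_div_comm, ← hw, hr', ← pow_add, mul_div_assoc, div_self (pow_ne_zero _ hne),
        mul_one]
    · rintro ⟨w, hw⟩
      refine ⟨w * ((1 - s) / 2) ^ 2, ?_⟩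
      rw [hr']
      linear_combination ((1 - s) / 2) ^ 4 * hw
  rcases mul_eq_zero.1 h1 with h2 | h2
  · exact key s hs2 (by linear_combination h2)
  · exact key (-s) (by linear_combination hs2) (by linear_combination h2)

theorem root42 {p : ℕ} (hp : p.Prime) (p8 : p % 8 = 1) (h7 : IsSquare (-7 : ZMod p))
    (r : ZMod p) (hr : r ^ 2 + ((-42 : ℤ) : ZMod p) * r + ((-7 : ℤ) : ZMod p) = 0) :
    IsSquare r ↔ n4 p = 0 := by
  have : Fact p.Prime := ⟨hp⟩
  obtain ⟨p7, n2, n7⟩ := facts hp p8 h7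
  have p2 : p ≠ 2 := by rintro rfl; omega
  obtain ⟨s, hs⟩ := h7
  obtain ⟨i, hi⟩ : IsSquare (-1 : ZMod p) := by
    rw [ZMod.exists_sq_eq_neg_one_iff]
    omega
  push_cast at hr
  have hs2 : s ^ 2 = -7 := by linear_combination -hs
  have hi2 : i ^ 2 = -1 := by linear_combination -hi
  -- `r = 21 ± 8 √7`, `√7 = i s`
  have h1 : (r - 21 - 8 * (i * s)) * (r - 21 + 8 * (i * s)) = 0 := by
    linear_combination hr - 64 * s ^ 2 * hi2 + 64 * hs2
  have key : ∀ i s : ZMod p, i ^ 2 = -1 → s ^ 2 = -7 → r = 21 + 8 * (i * s) →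
      (IsSquare r ↔ n4 p = 0) := by
    intro i s hi2 hs2 h2
    rw [← sq_iff_four hp p8 hs2]
    -- `r = s ((1 + i) (3 + i s) / 2) ^ 2`
    have hr' : r = s * ((1 + i) * (3 + i * s) / 2) ^ 2 := by
      rw [h2]
      field_simp
      linear_combination (-(12 * s ^ 2 + 2 * i * s ^ 3 + s * (3 + i * s) ^ 2)) * hi2 -
        (-12 - 2 * i * s) * hs2
    have hne : (1 + i) * (3 + i * s) / 2 ≠ 0 := by
      rw [div_ne_zero_iff]
      refine ⟨mul_ne_zero (fun h0 => ?_) (fun h0 => ?_), n2⟩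
      · have h3 : i = -1 := by linear_combination h0
        rw [h3] at hi2
        have h4 : (2 : ZMod p) = 0 := by linear_combination hi2
        exact n2 h4
      · have h3 : i * s = -3 := by linear_combination h0
        have h4 : (2 : ZMod p) = 0 := by
          have h5 : (i * s) ^ 2 = 7 := by
            linear_combination s ^ 2 * hi2 - hs2
          rw [h3] at h5
          linear_combination h5
        exact n2 h4
    constructor
    · rintro ⟨w, hw⟩
      refine ⟨w / ((1 + i) * (3 + i * s) / 2), ?_⟩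
      rw [div_mul_div_comm, ← hw, hr', ← pow_two, mul_div_assoc, div_self (pow_ne_zero _ hne),
        mul_one]
    · rintro ⟨w, hw⟩
      refine ⟨w * ((1 + i) * (3 + i * s) / 2), ?_⟩
      rw [hr']
      linear_combination ((1 + i) * (3 + i * s) / 2) ^ 2 * hw
  rcases mul_eq_zero.1 h1 with h2 | h2
  · exact key i s hi2 hs2 (by linear_combination h2)
  · exact key (-i) s (by linear_combination hi2) hs2 (by linear_combination h2)

end Pool.Agent.V11291.E49
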