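import Pool.Agent.V11291.E49.Sep
import Pool.Agent.V11291.E49.Sel
import Pool.Agent.Y687.JQ.Mat

/-!
# The functions on the diagonal of the two curves are separated by many primes
-/

set_option autoImplicit false
set_option linter.style.haveILetI false

open scoped Classical

namespace Pool.Agent.V11291.E49

open Finset NumberField
open Pool.Agent.Y703.CQ (nr Sp)
open Pool.Agent.Y687.JQ (fD)
open Pool.Agent.W401.Cheb (xp HasFrob)
open Pool.Agent.V11291.JF

/-- a root of `x² + 13 x + 128` is the seventh power of `(1 + √-7) / 2` -/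
theorem fD_zero {p : ℕ} [Fact p.Prime] (hp : Sp p) {c : ZMod p} (hc : c ^ 2 = -7) :
    fD p = 0 ↔ IsSquare ((1 + c) / 2) := by
  have hpr := hp.1
  have n2 : (2 : ZMod p) ≠ 0 := by
    have : p ≠ 2 := by rintro rfl; have := hp.2.1; omega
    intro h
    have h1 : ((2 : ℕ) : ZMod p) = 0 := by exact_mod_cast h
    rw [ZMod.natCast_eq_zero_iff] at h1
    exact this ((Nat.prime_dvd_prime_iff_eq hpr Nat.prime_two).1 h1)
  have hR := Pool.Agent.Z701.f_RTE p hp ∅ (by simp)
  have hpr0 : Pool.Agent.Z700.pr ∅ = 1 := by simp [Pool.Agent.Z700.pr]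
  rw [hpr0] at hR
  -- two is a square
  have h2s : IsSquare (2 : ZMod p) := by
    rw [ZMod.exists_sq_eq_two_iff (by rintro rfl; have := hp.2.1; omega)]
    exact Or.inl hp.2.1
  have key : ∀ c : ZMod p, c ^ 2 = -7 → (IsSquare ((-13 + 7 * c) / 2) ↔ IsSquare ((1 + c) / 2)) := by
    intro c hc
    have e : (-13 + 7 * c) / 2 = ((1 + c) / 2) ^ 7 := by
      field_simp
      have e1 : (2 : ZMod p) ^ 6 * (-13 + 7 * c) - (1 + c) ^ 7 =
        -(c ^ 5 + 7 * c ^ 4 + 14 * c ^ 3 - 14 * c ^ 2 - 63 * c + 119) * (c ^ 2 + 7) := by ring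
      linear_combination e1 - (c ^ 5 + 7 * c ^ 4 + 14 * c ^ 3 - 14 * c ^ 2 - 63 * c + 119) * hc
    have hne : (1 + c) / 2 ≠ 0 := by
      rw [div_ne_zero_iff]
      refine ⟨fun h0 => ?_, n2⟩
      have h3 : c = -1 := by linear_combination h0
      rw [h3] at hc
      have h4 : (2 : ZMod p) ^ 3 = 0 := by linear_combination hc
      exact pow_ne_zero 3 n2 h4
    rw [e]
    constructor
    · rintro ⟨w, hw⟩
      refine ⟨w / ((1 + c) / 2) ^ 3, ?_⟩
      rw [div_mul_div_comm, ← hw]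
      field_simp
    · rintro ⟨w, hw⟩
      exact ⟨w ^ 7, by rw [hw]; ring⟩
  have hroot : ∀ x : ZMod p, x ^ 2 + 13 * ((1 : ℕ) : ZMod p) * x + 128 * ((1 : ℕ) : ZMod p) ^ 2 = 0 ↔
      x = (-13 + 7 * c) / 2 ∨ x = (-13 + 7 * (-c)) / 2 := by
    intro x
    have e : 4 * (x ^ 2 + 13 * ((1 : ℕ) : ZMod p) * x + 128 * ((1 : ℕ) : ZMod p) ^ 2) =
        (2 * x - (-13 + 7 * c)) * (2 * x - (-13 + 7 * (-c))) := by
      push_cast
      linear_combination (49 : ZMod p) * hc
    have n4' : (4 : ZMod p) ≠ 0 := by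
      rw [show (4 : ZMod p) = 2 ^ 2 by norm_num]
      exact pow_ne_zero _ n2
    constructor
    · intro h
      rw [h, mul_zero] at e
      rcases mul_eq_zero.1 e.symm with h1 | h1
      · left
        rw [eq_div_iff n2]
        linear_combination h1
      · right
        rw [eq_div_iff n2]
        linear_combination h1
    · intro h
      refine (mul_eq_zero.1 (e.trans ?_)).resolve_left n4'
      rcases h with h | h
      · rw [h]
        have : 2 * ((-13 + 7 * c) / 2) = -13 + 7 * c := by field_simp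
        rw [this]
        ring
      · rw [h]
        have : 2 * ((-13 + 7 * (-c)) / 2) = -13 + 7 * (-c) := by field_simp
        rw [this]
        ring
  have hc' : (-c) ^ 2 = -7 := by rw [neg_sq]; exact hc
  -- the two roots have the same class
  have hcc : IsSquare ((1 + c) / 2) ↔ IsSquare ((1 + -c) / 2) := by
    have e : ((1 + c) / 2) * ((1 + -c) / 2) = 2 := by
      field_simp
      linear_combination (-1 : ZMod p) * hc
    obtain ⟨r, hr⟩ := h2s
    have hr0 : r ≠ 0 := by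
      rintro rfl
      apply n2
      rw [hr]
      ring
    constructor
    · rintro ⟨w, hw⟩
      have hw0 : w ≠ 0 := by
        rintro rfl
        rw [hw] at e
        apply n2
        rw [← e]
        ring
      refine ⟨r / w, ?_⟩
      rw [div_mul_div_comm, eq_div_iff (mul_ne_zero hw0 hw0)]
      linear_combination (-((1 + -c) / 2)) * hw + e + hr
    · rintro ⟨w, hw⟩
      have hw0 : w ≠ 0 := by
        rintro rfl
        rw [hw] at e
        apply n2
        rw [← e]
        ring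
      refine ⟨r / w, ?_⟩
      rw [div_mul_div_comm, eq_div_iff (mul_ne_zero hw0 hw0)]
      linear_combination (-((1 + c) / 2)) * hw + e + hr
  have hfd : fD p = 0 ↔ ¬ Pool.Agent.Y700.Rt p 1 := by
    unfold fD
    rw [hR, not_not]
    split_ifs with h
    · exact iff_of_true rfl h
    · exact iff_of_false one_ne_zero h
  rw [hfd]
  unfold Pool.Agent.Y700.Rt
  push Not
  constructor
  · rintro ⟨x, hx, hs⟩
    rcases (hroot x).1 hx with h | h
    · rw [h] at hs
      exact (key c hc).1 hs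
    · rw [h] at hs
      exact hcc.2 ((key (-c) hc').1 hs)
  · intro h
    exact ⟨_, (hroot _).2 (Or.inl rfl), (key c hc).2 h⟩

/-- **the functions on the diagonal of the two curves are separated** -/
theorem sep_mixed {e : Finset ℕ} (he : ∀ u ∈ e, u.Prime ∧ u ≠ 2 ∧ u ≠ 7) :
    ∃ δ C : ℝ, 0 < δ ∧ ∀ y : ℕ, 3 ≤ y → δ * Real.log (Real.log y) - C ≤
      ∑ p ∈ (range (y + 1)).filter (fun p => Sp p ∧ fD p + n4 p + ∑ u ∈ e, nr p u ≠ 0),
        (1 : ℝ) / p := by
  obtain ⟨E, hE⟩ : ∃ E : ℕ, E = ∏ u ∈ e, u := ⟨_, rfl⟩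
  have hE0 : E ≠ 0 := by
    rw [hE]
    exact Finset.prod_ne_zero_iff.2 fun u hu => (he u hu).1.ne_zero
  obtain ⟨L, hL1, hL2, hL3, g, i, t, s, γ, hi, ht, hs, hγ, gi, gt, gs, gγ⟩ := exists_field hE0
  obtain ⟨D0, hD0, hT⟩ := Pool.Agent.W401.Cheb.torsor L
  refine mer_set (a := fun p => (xp L g p : ℝ)) (fun p => Nat.cast_nonneg _)
    (Pool.Agent.W401.Cheb.chebotarev L g) (D := D0 * (14 * E))
    (Nat.mul_pos hD0 (Nat.mul_pos (by norm_num) (Nat.pos_of_ne_zero hE0)))
    (K := (Nat.card Gal(L/ℚ) : ℝ)) (by exact_mod_cast Nat.card_pos) ?_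
  intro p hp hpD hx
  have hpf : Fact p.Prime := ⟨hp⟩
  have hpD0 : ¬ p ∣ D0 := fun h => hpD (h.mul_right _)
  have hp14 : ¬ p ∣ 14 := fun h => hpD ((h.mul_right _).mul_left _)
  have hpE : ¬ p ∣ E := fun h => hpD ((h.mul_left _).mul_left _)
  have hp2 : p ≠ 2 := by rintro rfl; exact hp14 (by norm_num)
  have hp7 : p ≠ 7 := by rintro rfl; exact hp14 (by norm_num)
  have hx' : xp L g p ≠ 0 := fun h => hx (by rw [h]; norm_num)
  have hxe : xp L g p = Nat.card {φ : 𝓞 L →+* AlgebraicClosure (ZMod p) // HasFrob p φ g} := by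
    unfold xp
    rw [dif_pos hp]
  refine ⟨?_, ?_⟩
  swap
  · have hc := (hT p hpD0).1
    have h1 : Nat.card {φ : 𝓞 L →+* AlgebraicClosure (ZMod p) // HasFrob p φ g} ≤
        Nat.card (𝓞 L →+* AlgebraicClosure (ZMod p)) := by
      have : Finite (𝓞 L →+* AlgebraicClosure (ZMod p)) :=
        Nat.finite_of_card_ne_zero (by rw [hc]; exact Nat.card_pos.ne')
      exact Nat.card_le_card_of_injective _ Subtype.val_injective
    rw [hc, ← hxe] at h1
    exact_mod_cast h1
  rw [hxe] at hx'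
  obtain ⟨⟨φ, hφ⟩⟩ : Nonempty {φ : 𝓞 L →+* AlgebraicClosure (ZMod p) // HasFrob p φ g} := by
    by_contra h
    rw [not_nonempty_iff] at h
    exact hx' Nat.card_of_isEmpty
  have inj : Function.Injective (algebraMap (ZMod p) (AlgebraicClosure (ZMod p))) :=
    (algebraMap (ZMod p) (AlgebraicClosure (ZMod p))).injective
  have fix : ∀ x : 𝓞 L, g • x = x → ∃ z : ZMod p,
      algebraMap (ZMod p) (AlgebraicClosure (ZMod p)) z = φ x := by
    intro x hx
    refine W54.ChTor.frob_fixed p (φ x) ?_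
    have := hφ x
    rw [hx] at this
    exact this.symm
  obtain ⟨a, ha⟩ := fix i gi
  obtain ⟨b, hb⟩ := fix t gt
  obtain ⟨c, hc⟩ := fix s gs
  have ha2 : a ^ 2 = -1 := by
    apply inj
    rw [map_pow, ha, ← map_pow, hi, map_neg, map_one, map_neg, map_one]
  have hb2 : b ^ 2 = 2 := by
    apply inj
    rw [map_pow, hb, ← map_pow, ht, map_ofNat, map_ofNat]
  have hc2 : c ^ 2 = -7 := by
    apply inj
    rw [map_pow, hc, ← map_pow, hs, map_neg, map_ofNat, map_neg, map_ofNat]
  have n2 : (2 : ZMod p) ≠ 0 := by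
    intro h
    have h1 : ((2 : ℕ) : ZMod p) = 0 := by exact_mod_cast h
    rw [ZMod.natCast_eq_zero_iff] at h1
    exact hp2 ((Nat.prime_dvd_prime_iff_eq hp Nat.prime_two).1 h1)
  have n7 : (7 : ZMod p) ≠ 0 := by
    intro h
    have h1 : ((7 : ℕ) : ZMod p) = 0 := by exact_mod_cast h
    rw [ZMod.natCast_eq_zero_iff] at h1
    exact hp7 ((Nat.prime_dvd_prime_iff_eq hp (by norm_num)).1 h1)
  have nE : (E : ZMod p) ≠ 0 := by rwa [Ne, ZMod.natCast_eq_zero_iff]
  have hp4 : p % 4 ≠ 3 := by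
    rw [← ZMod.exists_sq_eq_neg_one_iff]
    exact ⟨a, by rw [← ha2]; ring⟩
  have hp8 : p % 8 = 1 := by
    have h1 : IsSquare (2 : ZMod p) := ⟨b, by rw [← hb2]; ring⟩
    rw [ZMod.exists_sq_eq_two_iff hp2] at h1
    omega
  have h7s : IsSquare (-7 : ZMod p) := ⟨c, by rw [← hc2]; ring⟩
  have hSp : Sp p := ⟨hp, hp8, (Pool.Agent.Y687.sq_seven p (by omega) hp7).1 h7s⟩
  refine ⟨hSp, ?_⟩
  -- `b'` is not a square
  have hyp := hφ γ
  rw [gγ, map_neg] at hyp
  obtain ⟨β, hβ⟩ : ∃ β : ZMod p, β = (E : ZMod p) * (c * ((1 + c) / 2)) := ⟨_, rfl⟩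
  have hβ2 : 2 * β = (E : ZMod p) * (c - 7) := by
    have h2' : 2 * ((1 + c) / 2) = 1 + c := mul_div_cancel₀ _ n2
    rw [hβ]
    linear_combination ((E : ZMod p) * c) * h2' + (E : ZMod p) * hc2
  have hβ0 : β ≠ 0 := by
    intro h
    rw [h, mul_zero] at hβ2
    have h1 : c - 7 = 0 := (mul_eq_zero.1 hβ2.symm).resolve_left nE
    have h2 : c = 7 := by linear_combination h1
    rw [h2] at hc2
    have h3 : (2 : ZMod p) ^ 3 * 7 = 0 := by linear_combination hc2
    exact mul_ne_zero (pow_ne_zero 3 n2) n7 h3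
  have hyβ : (φ γ) ^ 2 = algebraMap (ZMod p) (AlgebraicClosure (ZMod p)) β := by
    have h2 : (2 : AlgebraicClosure (ZMod p)) ≠ 0 := by
      intro h
      apply n2
      apply inj
      rw [map_ofNat, map_zero]
      exact h
    apply mul_left_cancel₀ h2
    have h3 := congrArg φ hγ
    rw [map_mul, map_mul, map_sub, map_pow, map_natCast, map_ofNat, map_ofNat, ← hc] at h3
    have h4 := congrArg (algebraMap (ZMod p) (AlgebraicClosure (ZMod p))) hβ2
    rw [map_mul, map_mul, map_sub, map_natCast, map_ofNat, map_ofNat] at h4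
    rw [h3, h4]
  have hns : ¬ IsSquare β := by
    rintro ⟨w, hw⟩
    have h1 : (φ γ) ^ 2 = (algebraMap (ZMod p) (AlgebraicClosure (ZMod p)) w) ^ 2 := by
      rw [hyβ, hw, map_mul, sq]
    have h2 : (φ γ) ^ p = φ γ := by
      rcases sq_eq_sq_iff_eq_or_eq_neg.1 h1 with h | h
      · rw [h, ← map_pow, ZMod.pow_card]
      · rw [h, ← map_neg, ← map_pow, ZMod.pow_card]
    rw [h2] at hyp
    have h3 : φ γ = 0 := by
      have h4 : (2 : AlgebraicClosure (ZMod p)) ≠ 0 := by
        intro h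
        apply n2
        apply inj
        rw [map_ofNat, map_zero]
        exact h
      apply (mul_eq_zero.1 (show (2 : AlgebraicClosure (ZMod p)) * φ γ = 0 by
        linear_combination -hyp)).resolve_left h4
    rw [h3, zero_pow two_ne_zero] at hyβ
    exact hβ0 (inj (by rw [← hyβ, map_zero]))
  have hpe : p ∉ e := by
    intro h
    apply hpE
    rw [hE]
    exact Finset.dvd_prod_of_mem _ h
  have hnrE : ∑ u ∈ e, nr p u = 0 ↔ IsSquare (E : ZMod p) := by
    rw [← nr_prod hp hp2 (fun u hu => (he u hu).1) hpe, nr_zero, hE]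
  have hn4 : n4 p = 0 ↔ IsSquare c := (sq_iff_four hp hp8 hc2).symm
  have hfd := fD_zero hSp hc2
  have hc0 : c ≠ 0 := by
    rintro rfl
    apply n7
    linear_combination hc2
  have hw0 : (1 + c) / 2 ≠ 0 := by
    intro h
    apply hβ0
    rw [hβ, h]
    ring
  have h5 : IsSquare β ↔ (IsSquare (E : ZMod p) ↔ (IsSquare c ↔ IsSquare ((1 + c) / 2))) := by
    rw [hβ, sq_mul hp2 nE (mul_ne_zero hc0 hw0), sq_mul hp2 hc0 hw0]
  rw [h5, ← hnrE, ← hn4, ← hfd] at hns
  intro h0
  apply hns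
  revert h0
  generalize fD p = x
  generalize n4 p = y
  generalize ∑ u ∈ e, nr p u = z
  revert x y z
  decide

end Pool.Agent.V11291.E49
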