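import Pool.Agent.V11291.E49.Gd
import Pool.Agent.V11291.JF.Asy
import Pool.Agent.Y687.MQ.Abs
import Pool.Agent.Y687.MQ.Fin
import Pool.Agent.Z705.Fin
import Pool.Agent.Y405.JQ.MER

/-!
# The joint proportion for the twists of `X_0(14)` and of `X_0(49)`
-/

set_option autoImplicit false
set_option linter.style.haveILetI false

open scoped Classical

namespace Pool.Agent.V11291.E49

open Finset
open Pool.Agent.Y703.CQ (nr cu Sol Gd Sp In Cl Ok c2)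
open Pool.Agent.Z702 (sh f_TRN)
open Pool.Agent.TH841.SH.D (Sha)
open Pool.Agent.Y687 (DD DD_natAbs InertT)
open Pool.Agent.Y687.MQ (AdmD matD ZB ZB_scale ZB_of_WB WB_D)
open Pool.Agent.Y687.JQ (fD CL CL_iff of_adm DD_mul DD_ne prod_symmDiff)
open Pool.Agent.V11291.JF

/-- rank zero and no element of order two in `Ш` -/
def R0 (a b : ℤ) : Prop :=
  Finite (sh a b).toAffine.Point ∧ ∀ x : Sha (sh a b), x + x = 0 → x = 0

theorem R0_scale {a b k : ℤ} (hab : 4 * a ^ 3 + 27 * b ^ 2 ≠ 0) (hk : k ≠ 0) :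
    R0 a b ↔ R0 (a * k ^ 4) (b * k ^ 6) := by
  have hk' : (k : ℚ) ≠ 0 := by exact_mod_cast hk
  have hv : Pool.Agent.Y700.VR (sh a b) (sh (a * k ^ 4) (b * k ^ 6)) (1 / k) 0 0 0 := by
    refine ⟨by positivity, ?_, ?_, ?_, ?_, ?_⟩
    · show (1 / (k : ℚ)) * 0 = 0 + 2 * 0
      norm_num
    · show (1 / (k : ℚ)) ^ 2 * 0 = 0 - 0 * 0 + 3 * 0 - 0 ^ 2
      norm_num
    · show (1 / (k : ℚ)) ^ 3 * 0 = 0 + 0 * 0 + 2 * 0
      norm_num
    · show (1 / (k : ℚ)) ^ 4 * ((a * k ^ 4 : ℤ) : ℚ) = (a : ℚ) - 0 * 0 + 2 * 0 * 0 -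
        (0 + 0 * 0) * 0 + 3 * 0 ^ 2 - 2 * 0 * 0
      push_cast
      field_simp
      ring
    · show (1 / (k : ℚ)) ^ 6 * ((b * k ^ 6 : ℤ) : ℚ) = (b : ℚ) + 0 * (a : ℚ) + 0 ^ 2 * 0 + 0 ^ 3 -
        0 * 0 - 0 ^ 2 - 0 * 0 * 0
      push_cast
      field_simp
      ring
  obtain ⟨h1, h2, -⟩ := f_TRN _ _ _ _ _ _ hv (by
    have e : (sh (a * k ^ 4) (b * k ^ 6)).Δ = ((-16 * (4 * a ^ 3 + 27 * b ^ 2) * k ^ 12 : ℤ) : ℚ) := by
      unfold sh WeierstrassCurve.Δ WeierstrassCurve.b₂ WeierstrassCurve.b₄ WeierstrassCurve.b₆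
        WeierstrassCurve.b₈
      push_cast
      ring
    rw [e]
    exact_mod_cast mul_ne_zero (mul_ne_zero (by norm_num) hab) (pow_ne_zero 12 hk))
  exact and_congr h1 h2

/-- the twist of `X_0(14)` -/
def R14 (D : ℤ) : Prop := R0 (5805 * D ^ 2) (-285714 * D ^ 3)

/-- the twist of `X_0(49)` -/
def R49 (D : ℤ) : Prop := R0 (-35 * D ^ 2) (-98 * D ^ 3)

theorem disc14 {D : ℤ} (hD : D ≠ 0) :
    4 * (5805 * D ^ 2) ^ 3 + 27 * (-285714 * D ^ 3) ^ 2 ≠ 0 := by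
  have e : 4 * (5805 * D ^ 2) ^ 3 + 27 * (-285714 * D ^ 3) ^ 2 =
      (4 * 5805 ^ 3 + 27 * 285714 ^ 2) * D ^ 6 := by ring
  rw [e]
  exact mul_ne_zero (by norm_num) (pow_ne_zero 6 hD)

theorem disc49 {D : ℤ} (hD : D ≠ 0) :
    4 * (-35 * D ^ 2) ^ 3 + 27 * (-98 * D ^ 3) ^ 2 ≠ 0 := by
  have e : 4 * (-35 * D ^ 2) ^ 3 + 27 * (-98 * D ^ 3) ^ 2 =
      (4 * (-35) ^ 3 + 27 * 98 ^ 2) * D ^ 6 := by ring
  rw [e]
  exact mul_ne_zero (by norm_num) (pow_ne_zero 6 hD)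

theorem R14_scale {D k : ℤ} (hD : D ≠ 0) (hk : k ≠ 0) : R14 (D * k ^ 2) ↔ R14 D := by
  unfold R14
  rw [R0_scale (disc14 hD) hk]
  ring_nf

theorem R49_scale {D k : ℤ} (hD : D ≠ 0) (hk : k ≠ 0) : R49 (D * k ^ 2) ↔ R49 D := by
  unfold R49
  rw [R0_scale (disc49 hD) hk]
  ring_nf

theorem R14_det {D : ℤ} (h : AdmD D) : R14 D ↔ (matD D).det ≠ 0 := by
  obtain ⟨hP, hT, -, he⟩ := Pool.Agent.Y687.MQ.of_admD h
  have h1 := Pool.Agent.Z704.equivS Pool.Agent.Z702.f_COC Pool.Agent.Z702.f_LOT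
    Pool.Agent.Z702.f_COB Pool.Agent.Z702.f_TOR Pool.Agent.Z702.f_LQ Pool.Agent.Z702.f_LG
    Pool.Agent.Z702.f_LP Pool.Agent.Z702.f_LIN Pool.Agent.Z702.f_TRN Pool.Agent.Z705.f_SELA
    Pool.Agent.Z705.f_SELB (Pool.Agent.Z705.cnd hP hT)
  have he' : ((Pool.Agent.Z700.pr (Pool.Agent.Y687.MQ.SP D) : ℕ) : ℤ) *
      DD (Pool.Agent.Y687.MQ.IP D) = D := he
  rw [he'] at h1
  have hm : DD (Pool.Agent.Y687.MQ.IP D) = Pool.Agent.Z700.pr (Pool.Agent.Y687.MQ.IP D) ∨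
      DD (Pool.Agent.Y687.MQ.IP D) = -(Pool.Agent.Z700.pr (Pool.Agent.Y687.MQ.IP D) : ℤ) := by
    refine Int.natAbs_eq_natAbs_iff.1 ?_
    rw [DD_natAbs, Int.natAbs_natCast]
    rfl
  rw [Pool.Agent.Y687.MQ.matD_eq, Pool.Agent.Y687.MQ.matT_iff hP hT,
    ← Pool.Agent.Y687.MQ.det_ind hP hT hm, h1]
  rfl

/-- `X_0(14)`: the criterion for the product of two discriminants -/
theorem R14_mul {M D : ℤ} (hM : AdmD M) (hD : AdmD D) :
    R14 (M * D) ↔ Gd fD (symmDiff D.natAbs.primeFactors M.natAbs.primeFactors) := by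
  obtain ⟨hC, hDD⟩ := of_adm hM
  obtain ⟨hC', hDD'⟩ := of_adm hD
  have hS := hC'.symmDiff hC
  have hm := DD_mul D.natAbs.primeFactors M.natAbs.primeFactors
  rw [hDD, hDD'] at hm
  have hg0 : DD (D.natAbs.primeFactors ∩ M.natAbs.primeFactors) ≠ 0 :=
    DD_ne fun p hp => (hC'.prime p (Finset.mem_inter.1 hp).1).ne_zero
  rw [mul_comm, hm, R14_scale hS.ne hg0, R14_det hS.adm, Pool.Agent.Y687.JQ.det_iff, hS.natAbs]

theorem ZB14_mul {M D : ℤ} (hM : AdmD M) (hD : AdmD D) (h : R14 (M * D)) :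
    ZB (5805 * (M * D) ^ 2) (-285714 * (M * D) ^ 3) := by
  rw [R14_mul hM hD] at h
  obtain ⟨hC, hDD⟩ := of_adm hM
  obtain ⟨hC', hDD'⟩ := of_adm hD
  have hS := hC'.symmDiff hC
  have hm := DD_mul D.natAbs.primeFactors M.natAbs.primeFactors
  rw [hDD, hDD'] at hm
  have hg0 : DD (D.natAbs.primeFactors ∩ M.natAbs.primeFactors) ≠ 0 :=
    DD_ne fun p hp => (hC'.prime p (Finset.mem_inter.1 hp).1).ne_zero
  have h1 : (matD (DD (symmDiff D.natAbs.primeFactors M.natAbs.primeFactors))).det ≠ 0 := by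
    rw [Pool.Agent.Y687.JQ.det_iff, hS.natAbs]
    exact h
  have h2 := ZB_of_WB (WB_D hS.adm h1)
  rw [mul_comm M D, hm]
  exact ZB_scale (by norm_num) hS.ne hg0 h2

/-! ### `X_0(49)` -/

/-- inert primes `≡ 5` modulo `8` -/
def I5 (q : ℕ) : Prop := q.Prime ∧ q % 8 = 5 ∧ (q % 7 = 3 ∨ q % 7 = 5 ∨ q % 7 = 6)

/-- sets of primes allowed for `X_0(49)` -/
def CL5 (S : Finset ℕ) : Prop := ∀ p ∈ S, Sp p ∨ I5 p

theorem CL5.prime {S : Finset ℕ} (h : CL5 S) : ∀ p ∈ S, p.Prime := by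
  intro p hp
  rcases h p hp with h1 | h1
  · exact h1.1
  · exact h1.1

theorem CL5.symmDiff {S T : Finset ℕ} (hS : CL5 S) (hT : CL5 T) : CL5 (symmDiff S T) := by
  intro p hp
  rcases Finset.mem_symmDiff.1 hp with h | h
  · exact hS p h.1
  · exact hT p h.1

/-- the product -/
def PR (S : Finset ℕ) : ℤ := ∏ p ∈ S, (p : ℤ)

theorem PR_cast (S : Finset ℕ) : PR S = ((∏ p ∈ S, p : ℕ) : ℤ) := by
  unfold PR
  push_cast
  rfl

theorem CL5.ne {S : Finset ℕ} (h : CL5 S) : PR S ≠ 0 := by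
  unfold PR
  exact Finset.prod_ne_zero_iff.2 fun p hp => by
    have := (h.prime p hp).ne_zero
    exact_mod_cast this

theorem CL5.cls {S : Finset ℕ} (h : CL5 S) : Cls (S.filter fun p => p % 8 = 5)
    (S.filter fun p => p % 8 = 1) := by
  constructor
  · intro q hq
    rw [Finset.mem_filter] at hq
    rcases h q hq.1 with h1 | h1
    · have := h1.2.1
      omega
    · have : Fact q.Prime := ⟨h1.1⟩
      refine ⟨h1.1, h1.2.1, ?_⟩
      have h7 : q ≠ 7 := by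
        rintro rfl
        have := h1.2.1
        omega
      rw [Pool.Agent.Y687.sq_seven q (by have := h1.2.1; omega) h7]
      have := h1.2.2
      omega
  · intro q hq
    rw [Finset.mem_filter] at hq
    rcases h q hq.1 with h1 | h1
    · have : Fact q.Prime := ⟨h1.1⟩
      refine ⟨h1.1, h1.2.1, ?_⟩
      have h7 : q ≠ 7 := by
        rintro rfl
        have := h1.2.1
        omega
      rw [Pool.Agent.Y687.sq_seven q (by have := h1.2.1; omega) h7]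
      exact h1.2.2
    · have := h1.2.1
      omega

theorem CL5.union {S : Finset ℕ} (h : CL5 S) : (S.filter fun p => p % 8 = 5) ∪
    (S.filter fun p => p % 8 = 1) = S := by
  ext p
  rw [Finset.mem_union, Finset.mem_filter, Finset.mem_filter]
  constructor
  · rintro (h1 | h1)
    · exact h1.1
    · exact h1.1
  · intro h1
    rcases h p h1 with h2 | h2
    · exact Or.inr ⟨h1, h2.2.1⟩
    · exact Or.inl ⟨h1, h2.2.1⟩

theorem R49_PR {S : Finset ℕ} (h : CL5 S) : R49 (PR S) ↔ Gd n4 S := by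
  have h1 := rank49 h.cls (D := PR S) (by rw [h.union, PR_cast])
  rw [h.union] at h1
  exact h1

/-- `X_0(49)`: the criterion for a product -/
theorem R49_mul {S T : Finset ℕ} (hS : CL5 S) (hT : CL5 T) :
    R49 (PR S * PR T) ↔ Gd n4 (symmDiff T S) := by
  have hm := prod_symmDiff (fun p : ℕ => (p : ℤ)) T S
  have hg0 : (∏ p ∈ T ∩ S, (p : ℤ)) ≠ 0 := Finset.prod_ne_zero_iff.2 fun p hp => by
    have := (hT.prime p (Finset.mem_inter.1 hp).1).ne_zero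
    exact_mod_cast this
  have e : PR S * PR T = PR (symmDiff T S) * (∏ p ∈ T ∩ S, (p : ℤ)) ^ 2 := by
    rw [mul_comm]
    exact hm
  rw [e, R49_scale (hT.symmDiff hS).ne hg0, R49_PR (hT.symmDiff hS)]

theorem ZB49 {S : Finset ℕ} (h : CL5 S) (hG : Gd n4 S) :
    ZB (-35 * (PR S) ^ 2) (-98 * (PR S) ^ 3) := by
  have hf := ((R49_PR h).2 hG).1
  obtain ⟨f, hf1, hfp, hf0⟩ := lf49 h.cls (by rw [h.union]; exact hG) (D := PR S)
    (by rw [h.union, PR_cast])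
  have hfin : {q : ℚ × ℚ | q.2 ^ 2 = q.1 ^ 3 + ((-35 * (PR S) ^ 2 : ℤ) : ℚ) * q.1 +
      ((-98 * (PR S) ^ 3 : ℤ) : ℚ)}.Finite := by
    have hΔ : (sh (-35 * (PR S) ^ 2) (-98 * (PR S) ^ 3)).Δ ≠ 0 := sh_delta h.ne
    refine Set.Finite.of_injOn (f := fun q : ℚ × ℚ => if hq : q.2 ^ 2 = q.1 ^ 3 +
      ((-35 * (PR S) ^ 2 : ℤ) : ℚ) * q.1 + ((-98 * (PR S) ^ 3 : ℤ) : ℚ) then
      (WeierstrassCurve.Affine.Point.some q.1 q.2 (Pool.Agent.Y700.nonsing hΔ (by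
        rw [WeierstrassCurve.Affine.equation_iff]
        unfold sh
        rw [hq]
        ring)) : (sh (-35 * (PR S) ^ 2) (-98 * (PR S) ^ 3)).toAffine.Point) else 0)
      (t := Set.univ) (fun _ _ => Set.mem_univ _) ?_ (Set.finite_univ_iff.2 hf)
    intro q hq q' hq' hqq
    rw [Set.mem_setOf_eq] at hq hq'
    beta_reduce at hqq
    rw [dif_pos hq, dif_pos hq', WeierstrassCurve.Affine.Point.some.injEq] at hqq
    exact Prod.ext hqq.1 hqq.2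
  obtain ⟨F, hF, hFp, hF1, -⟩ := Pool.Agent.Y687.rankBSD hf1 hfp hf0 hfin
  exact ⟨⟨F, ⟨hF, hFp⟩, hF1⟩, hfin⟩

theorem ZB49_mul {S T : Finset ℕ} (hS : CL5 S) (hT : CL5 T) (h : R49 (PR S * PR T)) :
    ZB (-35 * (PR S * PR T) ^ 2) (-98 * (PR S * PR T) ^ 3) := by
  rw [R49_mul hS hT] at h
  have hm := prod_symmDiff (fun p : ℕ => (p : ℤ)) T S
  have hg0 : (∏ p ∈ T ∩ S, (p : ℤ)) ≠ 0 := Finset.prod_ne_zero_iff.2 fun p hp => by
    have := (hT.prime p (Finset.mem_inter.1 hp).1).ne_zero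
    exact_mod_cast this
  have e : PR S * PR T = PR (symmDiff T S) * (∏ p ∈ T ∩ S, (p : ℤ)) ^ 2 := by
    rw [mul_comm]
    exact hm
  rw [e]
  exact ZB_scale (by norm_num) (hT.symmDiff hS).ne hg0 (ZB49 (hT.symmDiff hS) h)

/-! ### the separation -/

theorem sep_same {e : Finset ℕ} (hne : e.Nonempty) (he : ∀ u ∈ e, u.Prime ∧ u ≠ 2 ∧ u ≠ 7) :
    ∃ δ C : ℝ, 0 < δ ∧ ∀ y : ℕ, 3 ≤ y → δ * Real.log (Real.log y) - C ≤
      ∑ p ∈ (range (y + 1)).filter (fun p => Sp p ∧ ∑ u ∈ e, nr p u ≠ 0), (1 : ℝ) / p := by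
  obtain ⟨C, hC⟩ := Pool.Agent.Y405.JQ.t_JMER e hne he
  refine ⟨1 / 16, C, by norm_num, fun y hy => ?_⟩
  have h1 := (abs_le.1 (hC y hy)).1
  have h2 : ∑ p ∈ (range (y + 1)).filter (fun p => Sp p ∧ p ∉ e ∧ ∑ u ∈ e, nr p u ≠ 0),
      (1 : ℝ) / p ≤ ∑ p ∈ (range (y + 1)).filter (fun p => Sp p ∧ ∑ u ∈ e, nr p u ≠ 0),
      (1 : ℝ) / p := by
    refine Finset.sum_le_sum_of_subset_of_nonneg ?_ fun p _ _ => by positivity
    intro p hp
    rw [Finset.mem_filter] at hp ⊢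
    exact ⟨hp.1, hp.2.1, hp.2.2.2⟩
  linarith

end Pool.Agent.V11291.E49
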