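import Pool.Agent.V11291.E49.Count

/-!
# The two curves over multiquadratic fields
-/

set_option autoImplicit false
set_option linter.style.haveILetI false

open scoped Classical

namespace Pool.Agent.V11291.E49

open Finset
open Pool.Agent.Y703.CQ (c2 Sp Cl)
open Pool.Agent.Y687 (DD DD_natAbs)
open Pool.Agent.Y687.MQ (AdmD matD ZB ZB_scale ZB_of_WB WB_D Ind mq_zero)
open Pool.Agent.Y687.JQ (CL CL_iff of_adm DD_mul DD_ne prod_symmDiff isSquare_of_mul sqf_unique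
  prod_snoc_iff ind_snoc tendsto_exc AdS)
open Pool.Agent.Y19.QT (IsLFunK EK)

/-- up to squares in the family for `X_0(49)` -/
def FS (z : ℤ) : Prop := ∃ L k : ℤ, Fam49 L ∧ k ≠ 0 ∧ z = L * k ^ 2

/-- up to squares in the base family -/
def BS (z : ℤ) : Prop := ∃ (B : ℕ) (k : ℤ), BaseN B ∧ k ≠ 0 ∧ z = B * k ^ 2

theorem BS.a {z : ℤ} (h : BS z) : AdS z := by
  obtain ⟨B, k, h1, h2, h3⟩ := h
  exact ⟨B, k, h1.adm, h2, h3⟩

theorem BS.f {z : ℤ} (h : BS z) : FS z := by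
  obtain ⟨B, k, h1, h2, h3⟩ := h
  exact ⟨B, k, h1.f49, h2, h3⟩

theorem AdS_mul {x y : ℤ} (hx : AdS x) (hy : AdS y) : AdS (x * y) := by
  obtain ⟨D, m, hD, hm, rfl⟩ := hx
  obtain ⟨D', m', hD', hm', rfl⟩ := hy
  obtain ⟨hC, hDD⟩ := of_adm hD
  obtain ⟨hC', hDD'⟩ := of_adm hD'
  have h2 := DD_mul D.natAbs.primeFactors D'.natAbs.primeFactors
  rw [hDD, hDD'] at h2
  refine ⟨DD (symmDiff D.natAbs.primeFactors D'.natAbs.primeFactors),
    DD (D.natAbs.primeFactors ∩ D'.natAbs.primeFactors) * m * m', (hC.symmDiff hC').adm, ?_, ?_⟩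
  · refine mul_ne_zero (mul_ne_zero (DD_ne fun p hp => ?_) hm) hm'
    exact (hC.prime p (Finset.mem_inter.1 hp).1).ne_zero
  · linear_combination (m ^ 2 * m' ^ 2) * h2

theorem Fam49_PR {S : Finset ℕ} (h : CL5 S) : Fam49 (PR S) := by
  have hS : (PR S).natAbs = ∏ p ∈ S, p := by
    rw [PR_cast, Int.natAbs_natCast]
  refine ⟨?_, ?_, fun p hp hd => ?_⟩
  · rw [← Int.squarefree_natAbs, hS]
    refine Finset.squarefree_prod_of_pairwise_isCoprime (fun p hp q hq hpq => ?_)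
      fun p hp => (h.prime p hp).squarefree
    show IsRelPrime p q
    exact Nat.coprime_iff_isRelPrime.1 ((Nat.coprime_primes (h.prime p hp) (h.prime q hq)).2 hpq)
  · rw [PR_cast]
    exact_mod_cast Finset.prod_pos fun p hp => (h.prime p hp).pos
  · rw [Int.natCast_dvd, hS] at hd
    obtain ⟨q, hq, hpq⟩ := (hp.prime.dvd_finsetProd_iff _).1 hd
    rw [(Nat.prime_dvd_prime_iff_eq hp (h.prime q hq)).1 hpq]
    exact h q hq

theorem FS_mul {x y : ℤ} (hx : FS x) (hy : FS y) : FS (x * y) := by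
  obtain ⟨L, m, hL, hm, rfl⟩ := hx
  obtain ⟨L', m', hL', hm', rfl⟩ := hy
  obtain ⟨hC, hDD⟩ := hL.cl
  obtain ⟨hC', hDD'⟩ := hL'.cl
  have h2 := prod_symmDiff (fun p : ℕ => (p : ℤ)) L.natAbs.primeFactors L'.natAbs.primeFactors
  have h3 : L * L' = PR (symmDiff L.natAbs.primeFactors L'.natAbs.primeFactors) *
      (PR (L.natAbs.primeFactors ∩ L'.natAbs.primeFactors)) ^ 2 := by
    have h4 : L * L' = PR L.natAbs.primeFactors * PR L'.natAbs.primeFactors := by rw [hDD, hDD']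
    rw [h4]
    exact h2
  refine ⟨_, PR (L.natAbs.primeFactors ∩ L'.natAbs.primeFactors) * m * m',
    Fam49_PR (hC.symmDiff hC'), ?_, ?_⟩
  · refine mul_ne_zero (mul_ne_zero ?_ hm) hm'
    unfold PR
    exact Finset.prod_ne_zero_iff.2 fun p hp => by
      have := (hC.prime p (Finset.mem_inter.1 hp).1).ne_zero
      exact_mod_cast this
  · linear_combination (m ^ 2 * m' ^ 2) * h3

theorem AdS_prod {n : ℕ} {d : Fin n → ℤ} (ha : ∀ i, BS (d i)) {N : ℤ} (hN : AdS N)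
    (T : Finset (Fin n)) : AdS (N * ∏ i ∈ T, d i) := by
  induction T using Finset.induction_on with
  | empty => rwa [Finset.prod_empty, mul_one]
  | insert a T haT ih =>
    rw [Finset.prod_insert haT, mul_comm (d a), ← mul_assoc]
    exact AdS_mul ih (ha a).a

theorem FS_prod {n : ℕ} {d : Fin n → ℤ} (ha : ∀ i, BS (d i)) {N : ℤ} (hN : FS N)
    (T : Finset (Fin n)) : FS (N * ∏ i ∈ T, d i) := by
  induction T using Finset.induction_on with
  | empty => rwa [Finset.prod_empty, mul_one]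
  | insert a T haT ih =>
    rw [Finset.prod_insert haT, mul_comm (d a), ← mul_assoc]
    exact FS_mul ih (ha a).f

theorem ZB14_S {z : ℤ} (h : AdS z) (hR : R14 z) : ZB (5805 * z ^ 2) (-285714 * z ^ 3) := by
  obtain ⟨D, k, hD, hk, rfl⟩ := h
  rw [R14_scale hD.1.ne_zero hk, R14_det hD] at hR
  exact ZB_scale (by norm_num) hD.1.ne_zero hk (ZB_of_WB (WB_D hD hR))

theorem ZB49_S {z : ℤ} (h : FS z) (hR : R49 z) : ZB (-35 * z ^ 2) (-98 * z ^ 3) := by
  obtain ⟨L, k, hL, hk, rfl⟩ := h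
  obtain ⟨hC, he⟩ := hL.cl
  rw [R49_scale hL.1.ne_zero hk] at hR
  have h1 := hR
  rw [← he, R49_PR hC] at h1
  have h2 := ZB49 hC h1
  rw [he] at h2
  exact ZB_scale (by norm_num) hL.1.ne_zero hk h2

/-- `X_0(14)` over multiquadratic fields -/
theorem field14 {n : ℕ} {d : Fin n → ℤ} (hd : Ind d) (ha : ∀ i, BS (d i)) {M : ℤ} (hM : AdS M)
    (hM0 : M ≠ 0) (h : ∀ T : Finset (Fin n), R14 (M * ∏ i ∈ T, d i))
    (K : Type) [Field K] [NumberField K] (x : Fin n → K) (hx : ∀ i, x i ^ 2 = (d i : K))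
    (hK : IntermediateField.adjoin ℚ (Set.range x) = ⊤) :
    (∃ F : ℂ → ℂ, IsLFunK K (5805 * M ^ 2) (-285714 * M ^ 3) (∏ i, d i) F ∧ F 1 ≠ 0) ∧
      Finite (EK K (5805 * M ^ 2) (-285714 * M ^ 3)) := by
  refine mq_zero hd (disc14 hM0) (fun T => ?_) K x hx hK
  have h1 := ZB14_S (AdS_prod ha hM T) (h T)
  rw [mul_pow, mul_pow, ← mul_assoc, ← mul_assoc] at h1
  exact h1

/-- `X_0(49)` over multiquadratic fields -/
theorem field49 {n : ℕ} {d : Fin n → ℤ} (hd : Ind d) (ha : ∀ i, BS (d i)) {M : ℤ} (hM : FS M)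
    (hM0 : M ≠ 0) (h : ∀ T : Finset (Fin n), R49 (M * ∏ i ∈ T, d i))
    (K : Type) [Field K] [NumberField K] (x : Fin n → K) (hx : ∀ i, x i ^ 2 = (d i : K))
    (hK : IntermediateField.adjoin ℚ (Set.range x) = ⊤) :
    (∃ F : ℂ → ℂ, IsLFunK K (-35 * M ^ 2) (-98 * M ^ 3) (∏ i, d i) F ∧ F 1 ≠ 0) ∧
      Finite (EK K (-35 * M ^ 2) (-98 * M ^ 3)) := by
  refine mq_zero hd (disc49 hM0) (fun T => ?_) K x hx hK
  have h1 := ZB49_S (FS_prod ha hM T) (h T)
  rw [mul_pow, mul_pow, ← mul_assoc, ← mul_assoc] at h1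
  exact h1

theorem inj_of {n : ℕ} {d : Fin n → ℤ} (hd : Ind d) {M : ℤ} (hM : M ≠ 0)
    {N : Finset (Fin n) → ℤ} (hN : ∀ T, N T ≠ 0 ∧ ∃ k : ℤ, k ≠ 0 ∧ M * ∏ i ∈ T, d i = N T * k ^ 2) :
    Function.Injective N := by
  intro T T' hTT
  by_contra hne
  obtain ⟨h0, k, hk, he⟩ := hN T
  obtain ⟨h0', k', hk', he'⟩ := hN T'
  rw [hTT] at he
  have hne' : (symmDiff T T').Nonempty := by
    rw [Finset.nonempty_iff_ne_empty]
    intro h
    exact hne (symmDiff_eq_bot.1 h)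
  refine hd _ hne' (isSquare_of_mul (y := M * ∏ i ∈ T ∩ T', d i) (z := N T' * k * k') ?_ ?_)
  · refine mul_ne_zero hM (Finset.prod_ne_zero_iff.2 fun i hi => ?_)
    have h1 : M * ∏ i ∈ T, d i ≠ 0 := by
      rw [he]
      exact mul_ne_zero h0' (pow_ne_zero 2 hk)
    exact Finset.prod_ne_zero_iff.1 (mul_ne_zero_iff.1 h1).2 i (Finset.mem_inter.1 hi).1
  · have h1 := prod_symmDiff d T T'
    linear_combination (-(M ^ 2)) * h1 + (M * ∏ i ∈ T', d i) * he + (N T' * k ^ 2) * he'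

/-- **the proportion of the twists of both curves over a field** -/
theorem prop_two {n : ℕ} {d : Fin n → ℤ} (hd : Ind d) (ha : ∀ i, BS (d i)) {M L : ℤ}
    (hM : AdS M) (hM0 : M ≠ 0) (hL : FS L) (hL0 : L ≠ 0) :
    Filter.Tendsto (fun X : ℕ => (((Icc 1 X).filter fun D : ℕ => BaseN D ∧
        (∀ T : Finset (Fin n), R14 (M * D * ∏ i ∈ T, d i)) ∧
        ∀ T : Finset (Fin n), R49 (L * D * ∏ i ∈ T, d i)).card : ℝ) /
      (((Icc 1 X).filter BaseN).card : ℝ)) Filter.atTop (nhds (c2 ^ 2 ^ (n + 1))) := by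
  have hA : ∀ T : Finset (Fin n), ∃ D k : ℤ, AdmD D ∧ k ≠ 0 ∧ M * ∏ i ∈ T, d i = D * k ^ 2 :=
    fun T => AdS_prod ha hM T
  have hB : ∀ T : Finset (Fin n), ∃ D k : ℤ, Fam49 D ∧ k ≠ 0 ∧ L * ∏ i ∈ T, d i = D * k ^ 2 :=
    fun T => FS_prod ha hL T
  choose A ka hA using hA
  choose B kb hB using hB
  have hiA : Function.Injective A := inj_of hd hM0 fun T =>
    ⟨(hA T).1.1.ne_zero, ka T, (hA T).2.1, (hA T).2.2⟩
  have hiB : Function.Injective B := inj_of hd hL0 fun T =>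
    ⟨(hB T).1.1.ne_zero, kb T, (hB T).2.1, (hB T).2.2⟩
  have hcA : (univ.image A).card = 2 ^ n := by
    rw [Finset.card_image_of_injective _ hiA, Finset.card_univ, Fintype.card_finset,
      Fintype.card_fin]
  have hcB : (univ.image B).card = 2 ^ n := by
    rw [Finset.card_image_of_injective _ hiB, Finset.card_univ, Fintype.card_finset,
      Fintype.card_fin]
  have h := joint (𝓜 := univ.image A) (𝓛 := univ.image B)
    (fun m hm => by
      obtain ⟨T, -, rfl⟩ := Finset.mem_image.1 hm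
      exact (hA T).1)
    (fun m hm => by
      obtain ⟨T, -, rfl⟩ := Finset.mem_image.1 hm
      exact (hB T).1)
  rw [hcA, hcB, ← two_mul, ← pow_succ'] at h
  refine h.congr fun X => congrArg₂ (fun a b : ℕ => (a : ℝ) / (b : ℝ)) ?_ rfl
  refine congrArg Finset.card (Finset.filter_congr fun D _ => ?_)
  refine and_congr_right fun hD => ?_
  have hD0 : (D : ℤ) ≠ 0 := hD.adm.1.ne_zero
  have e1 : ∀ T : Finset (Fin n), R14 (A T * D) ↔ R14 (M * D * ∏ i ∈ T, d i) := by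
    intro T
    have e : M * D * ∏ i ∈ T, d i = A T * D * (ka T) ^ 2 := by
      linear_combination (D : ℤ) * (hA T).2.2
    rw [e, R14_scale (mul_ne_zero (hA T).1.1.ne_zero hD0) (hA T).2.1]
  have e2 : ∀ T : Finset (Fin n), R49 (B T * D) ↔ R49 (L * D * ∏ i ∈ T, d i) := by
    intro T
    have e : L * D * ∏ i ∈ T, d i = B T * D * (kb T) ^ 2 := by
      linear_combination (D : ℤ) * (hB T).2.2
    rw [e, R49_scale (mul_ne_zero (hB T).1.1.ne_zero hD0) (hB T).2.1]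
  constructor
  · rintro ⟨k1, k2⟩
    exact ⟨fun T => (e1 T).1 (k1 _ (Finset.mem_image_of_mem A (Finset.mem_univ T))),
      fun T => (e2 T).1 (k2 _ (Finset.mem_image_of_mem B (Finset.mem_univ T)))⟩
  · rintro ⟨k1, k2⟩
    refine ⟨fun m hm => ?_, fun m hm => ?_⟩
    · obtain ⟨T, -, rfl⟩ := Finset.mem_image.1 hm
      exact (e1 T).2 (k1 T)
    · obtain ⟨T, -, rfl⟩ := Finset.mem_image.1 hm
      exact (e2 T).2 (k2 T)

/-- both curves are good over the field -/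
def G2 {n : ℕ} (d : Fin n → ℤ) (M L : ℤ) : Prop :=
  (∀ T : Finset (Fin n), R14 (M * ∏ i ∈ T, d i)) ∧ ∀ T : Finset (Fin n), R49 (L * ∏ i ∈ T, d i)

theorem G2_snoc {n : ℕ} (d : Fin n → ℤ) (M L D : ℤ) :
    G2 (Fin.snoc d D : Fin (n + 1) → ℤ) M L ↔ (G2 d M L ∧ G2 d (M * D) (L * D)) := by
  unfold G2
  rw [prod_snoc_iff d D (fun z => R14 (M * z)), prod_snoc_iff d D (fun z => R49 (L * z))]
  simp only [mul_assoc]
  tauto

theorem base_infinite : {D : ℕ | 1 ≤ D ∧ BaseN D}.Infinite := by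
  have hinf := Nat.infinite_setOfPred_prime_and_eq_mod (q := 56) (a := ((1 : ℕ) : ZMod 56))
    ((ZMod.isUnit_iff_coprime 1 56).2 (by norm_num))
  refine hinf.mono ?_
  rintro q ⟨hq, hqa⟩
  have h56 : q % 56 = 1 % 56 := (ZMod.natCast_eq_natCast_iff' _ _ _).1 hqa
  refine ⟨hq.one_lt.le, hq.squarefree, by omega, fun p hp hd => Or.inl ?_⟩
  rw [(Nat.prime_dvd_prime_iff_eq hp hq).1 hd]
  exact ⟨hq, by omega, by omega⟩

/-- **the proportion of the quadratic extensions** -/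
theorem prop_ext2 {n : ℕ} {d : Fin n → ℤ} (hd : Ind d) (ha : ∀ i, BS (d i)) {M L : ℤ}
    (hM : AdS M) (hM0 : M ≠ 0) (hL : FS L) (hL0 : L ≠ 0) (hG : G2 d M L) :
    Filter.Tendsto (fun X : ℕ => (((Icc 1 X).filter fun D : ℕ => BaseN D ∧
        (Ind (Fin.snoc d (D : ℤ) : Fin (n + 1) → ℤ) ∧
          G2 (Fin.snoc d (D : ℤ) : Fin (n + 1) → ℤ) M L)).card : ℝ) /
      (((Icc 1 X).filter BaseN).card : ℝ)) Filter.atTop (nhds (c2 ^ 2 ^ (n + 1))) := by
  have hA : ∀ T : Finset (Fin n), ∃ D k : ℤ, AdmD D ∧ k ≠ 0 ∧ 1 * ∏ i ∈ T, d i = D * k ^ 2 :=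
    fun T => AdS_prod ha ⟨1, 1, by
      refine ⟨squarefree_one, by norm_num, by norm_num, fun p hp hd => ?_⟩
      exact absurd (Int.natCast_dvd.1 hd) (by simpa using hp.one_lt.ne'), one_ne_zero, by norm_num⟩ T
  choose A ka hA using hA
  refine tendsto_exc BaseN (fun D : ℕ => BaseN D ∧
        (∀ T : Finset (Fin n), R14 (M * D * ∏ i ∈ T, d i)) ∧
        ∀ T : Finset (Fin n), R49 (L * D * ∏ i ∈ T, d i))
    (fun D : ℕ => BaseN D ∧ (Ind (Fin.snoc d (D : ℤ) : Fin (n + 1) → ℤ) ∧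
          G2 (Fin.snoc d (D : ℤ) : Fin (n + 1) → ℤ) M L))
    (univ.image fun T => (A T).natAbs) base_infinite
    (fun D h => h.1) (fun D h => ⟨h.1, ((G2_snoc d M L _).1 h.2.2).2⟩) (fun D h hDE => ?_)
    (prop_two hd ha hM hM0 hL hL0)
  refine ⟨h.1, ind_snoc hd fun T hsq => hDE ?_, (G2_snoc d M L _).2 ⟨hG, h.2⟩⟩
  obtain ⟨hT, hk, hk2⟩ := hA T
  obtain ⟨w, hw⟩ := hsq
  have hD0 : (D : ℤ) ≠ 0 := h.1.adm.1.ne_zero
  rw [one_mul] at hk2
  rw [hk2] at hw
  have hw0 : w ≠ 0 := by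
    rintro rfl
    rw [mul_zero] at hw
    exact mul_ne_zero hD0 (mul_ne_zero hT.1.ne_zero (pow_ne_zero 2 hk)) hw
  have h1 : (D : ℤ) = A T := by
    refine sqf_unique h.1.adm.1 hT.1 (mul_ne_zero (mul_ne_zero hT.1.ne_zero hk) hk)
      (mul_ne_zero hw0 hk) ?_
    have e1 : A T * (w * ka T) ^ 2 = A T * (ka T) ^ 2 * (w * w) := by ring
    rw [e1, ← hw]
    ring
  refine Finset.mem_image.2 ⟨T, Finset.mem_univ _, ?_⟩
  show (A T).natAbs = D
  rw [← h1, Int.natAbs_natCast]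

theorem adm_one : AdmD 1 := by
  refine ⟨squarefree_one, by norm_num, by norm_num, fun p hp hd => ?_⟩
  exact absurd (Int.natCast_dvd.1 hd) (by simpa using hp.one_lt.ne')

theorem R14_one : R14 1 := by
  rw [R14_det adm_one]
  have hS : IsEmpty (Pool.Agent.Y687.MQ.SP 1) := by
    constructor
    rintro ⟨p, hp⟩
    simp [Pool.Agent.Y687.MQ.SP] at hp
  rw [Matrix.det_isEmpty]
  exact one_ne_zero

theorem R49_one : R49 1 := by
  have h : CL5 ∅ := fun p hp => absurd hp (Finset.notMem_empty p)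
  have h1 := (R49_PR h).2 (by
    intro x _ p hp
    exact absurd hp (Finset.notMem_empty p))
  unfold PR at h1
  rwa [Finset.prod_empty] at h1

end Pool.Agent.V11291.E49
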